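import Pool.Agent.N20.DI.Stm2
import Pool.Agent.R674.Tw.Final

/-!
# DI/KDU (helper20, subtask 6267): the alternating sums for inertial groups, with the defect
-/

set_option autoImplicit false

open scoped Classical BigOperators

noncomputable section

namespace Pool.Agent.N521.DI

open Pool.Agent.Y63.NV
open Pool.Agent.Y63.KR
open Pool.Agent.Y63.AWC (IsIrreducibleCharacter irr_comp)
open Pool.Agent.Y171.NV (card_fib irr_fin)
open Pool.Agent.R674.Tw
open Pool.Agent.N20.DI

theorem hasDef_comp {p d : ℕ} {J J' : Type} [Group J] [Group J'] (e : J ≃* J') (χ : J' → ℂ) :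
    HasDef p d (fun x => χ (e x)) ↔ HasDef p d χ := by
  have h1 : Nat.card J = Nat.card J' := Nat.card_congr e.toEquiv
  unfold HasDef Dg
  rw [h1]
  simp only [map_one]

section

variable {F : Type} [Field F] {E : Type} [Group E] [Finite E]

theorem kdU_conj (p : ℕ) (red : integralClosure ℤ ℂ →+* F) (G : Subgroup E) [G.Normal]
    (B : (G → F) → F) (d : ℕ) (U : Subgroup (E ⧸ G)) (σ : Set (Subgroup E)) {g : E} (hg : g ∈ G) :
    kdU p red G B d U (conjSub g '' σ) = kdU p red G B d U σ := by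
  unfold kdU
  refine Nat.card_congr
    { toFun := fun χ => ⟨fun n => χ.1 (ce G σ hg n), irr_comp (ce G σ hg) χ.2.1,
        (hasDef_comp (ce G σ hg) χ.1).2 χ.2.2.1, ?_, ?_⟩
      invFun := fun χ => ⟨fun n => χ.1 ((ce G σ hg).symm n), irr_comp (ce G σ hg).symm χ.2.1,
        (hasDef_comp (ce G σ hg).symm χ.1).2 χ.2.2.1, ?_, ?_⟩
      left_inv := fun χ => ?_
      right_inv := fun χ => ?_ }
  · rw [nebar_conj]
    exact χ.2.2.2.1
  · rw [indB_conj red G σ hg χ.1 χ.2.1]
    exact χ.2.2.2.2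
  · rw [← nebar_conj G σ hg]
    simp only [MulEquiv.symm_apply_apply]
    exact χ.2.2.2.1
  · rw [← indB_conj red G σ hg _ (irr_comp (ce G σ hg).symm χ.2.1)]
    simp only [MulEquiv.symm_apply_apply]
    exact χ.2.2.2.2
  · apply Subtype.ext
    funext n
    simp only [MulEquiv.apply_symm_apply]
  · apply Subtype.ext
    funext n
    simp only [MulEquiv.symm_apply_apply]

/-- the counts by inertial groups -/
theorem kdGe_eq (p : ℕ) (red : integralClosure ℤ ℂ →+* F) (G : Subgroup E) [G.Normal]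
    (B : (G → F) → F) (d : ℕ) (V : Subgroup (E ⧸ G)) (σ : Set (Subgroup E))
    [Fintype (Subgroup (E ⧸ G))] :
    kdGe p red G B d V σ = ∑ W : Subgroup (E ⧸ G), if V ≤ W then kdU p red G B d W σ else 0 := by
  have hX := irr_fin (NG G σ)
  have hX' : Finite {χ : NG G σ → ℂ // IsIrreducibleCharacter χ ∧ HasDef p d χ ∧
      IndB red G σ χ B} :=
    Finite.of_injective (fun χ : {χ : NG G σ → ℂ // IsIrreducibleCharacter χ ∧ HasDef p d χ ∧
        IndB red G σ χ B} =>
      (⟨χ.1, χ.2.1⟩ : {χ : NG G σ → ℂ // IsIrreducibleCharacter χ}))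
      (fun a b h => Subtype.ext (congrArg (fun t => t.1) h))
  have h1 := card_fib (fun χ : {χ : NG G σ → ℂ // IsIrreducibleCharacter χ ∧ HasDef p d χ ∧
      IndB red G σ χ B} =>
    NEbar G σ χ.1) Finset.univ (fun χ => Finset.mem_univ _) (fun W => V ≤ W)
  have h2 : kdGe p red G B d V σ =
      Nat.card {χ : {χ : NG G σ → ℂ // IsIrreducibleCharacter χ ∧ HasDef p d χ ∧
        IndB red G σ χ B} // V ≤ NEbar G σ χ.1} := by
    unfold kdGe
    exact Nat.card_congr
      { toFun := fun χ => ⟨⟨χ.1, χ.2.1, χ.2.2.1, χ.2.2.2.2⟩, χ.2.2.2.1⟩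
        invFun := fun χ => ⟨χ.1.1, χ.1.2.1, χ.1.2.2.1, χ.2, χ.1.2.2.2⟩
        left_inv := fun χ => rfl
        right_inv := fun χ => rfl }
  rw [h2, h1]
  refine Finset.sum_congr rfl fun W _ => ?_
  by_cases h : V ≤ W
  · rw [if_pos h, if_pos h]
    unfold kdU
    exact Nat.card_congr
      { toFun := fun χ => ⟨χ.1.1, χ.1.2.1, χ.1.2.2.1, χ.2, χ.1.2.2.2⟩
        invFun := fun χ => ⟨⟨χ.1, χ.2.1, χ.2.2.1, χ.2.2.2.2⟩, χ.2.2.2.1⟩
        left_inv := fun χ => rfl
        right_inv := fun χ => rfl }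
  · rw [if_neg h, if_neg h]

theorem kdGe_conj (p : ℕ) (red : integralClosure ℤ ℂ →+* F) (G : Subgroup E) [G.Normal]
    (B : (G → F) → F) (d : ℕ) (V : Subgroup (E ⧸ G)) (σ : Set (Subgroup E)) {g : E} (hg : g ∈ G) :
    kdGe p red G B d V (conjSub g '' σ) = kdGe p red G B d V σ := by
  have : Fintype (Subgroup (E ⧸ G)) := Fintype.ofFinite _
  rw [kdGe_eq, kdGe_eq]
  refine Finset.sum_congr rfl fun W _ => ?_
  rw [kdU_conj p red G B d W σ hg]

theorem sum_kdU {p : ℕ} (red : integralClosure ℤ ℂ →+* F) (G : Subgroup E) [G.Normal]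
    (B : (G → F) → F) (d : ℕ) (U : Subgroup (E ⧸ G))
    (hge : ∀ V : Subgroup (E ⧸ G), U ≤ V →
      invSum p G (fun σ => (kdGe p red G B d V σ : ℤ)) = 0) :
    invSum p G (fun σ => (kdU p red G B d U σ : ℤ)) = 0 := by
  have : Fintype (GCh p G) := Fintype.ofFinite _
  have : Fintype (Subgroup (E ⧸ G)) := Fintype.ofFinite _
  induction U using (wellFounded_gt (α := Subgroup (E ⧸ G))).induction with
  | _ U ih =>
  have h1 := hge U le_rfl
  rw [invSum_eq_zero G _ (fun g hg σ => by rw [kdGe_conj p red G B d U σ hg])] at h1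
  rw [invSum_eq_zero G _ (fun g hg σ => by rw [kdU_conj p red G B d U σ hg])]
  have h2 : ∀ W : Subgroup (E ⧸ G), U < W → ∑ σ : GCh p G, (-1) ^ σ.1.ncard *
      ((Nat.card (NG G σ.1) : ℤ) * (kdU p red G B d W σ.1 : ℤ)) = 0 := by
    intro W hW
    have h3 := ih W hW (fun V hV => hge V (hW.le.trans hV))
    rwa [invSum_eq_zero G _ (fun g hg σ => by rw [kdU_conj p red G B d W σ hg])] at h3
  have h4 : ∑ σ : GCh p G, (-1) ^ σ.1.ncard *
      ((Nat.card (NG G σ.1) : ℤ) * (kdGe p red G B d U σ.1 : ℤ)) =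
      ∑ W : Subgroup (E ⧸ G), if U ≤ W then (∑ σ : GCh p G, (-1) ^ σ.1.ncard *
        ((Nat.card (NG G σ.1) : ℤ) * (kdU p red G B d W σ.1 : ℤ))) else 0 := by
    have h5 : ∀ σ : GCh p G, (-1) ^ σ.1.ncard *
        ((Nat.card (NG G σ.1) : ℤ) * (kdGe p red G B d U σ.1 : ℤ)) =
        ∑ W : Subgroup (E ⧸ G), if U ≤ W then (-1) ^ σ.1.ncard *
          ((Nat.card (NG G σ.1) : ℤ) * (kdU p red G B d W σ.1 : ℤ)) else 0 := by
      intro σ
      rw [kdGe_eq, Nat.cast_sum, Finset.mul_sum, Finset.mul_sum]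
      refine Finset.sum_congr rfl fun W _ => ?_
      by_cases h : U ≤ W
      · rw [if_pos h, if_pos h]
      · rw [if_neg h, if_neg h, Nat.cast_zero, mul_zero, mul_zero]
    rw [Finset.sum_congr rfl fun σ _ => h5 σ, Finset.sum_comm]
    refine Finset.sum_congr rfl fun W _ => ?_
    by_cases h : U ≤ W
    · simp only [if_pos h]
    · simp only [if_neg h, Finset.sum_const_zero]
  rw [h4, Finset.sum_eq_single U] at h1
  · rw [if_pos le_rfl] at h1
    exact h1
  · intro W _ hW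
    by_cases h : U ≤ W
    · rw [if_pos h]
      exact h2 W (lt_of_le_of_ne h (Ne.symm hW))
    · rw [if_neg h]
  · intro h
    exact absurd (Finset.mem_univ _) h

end

theorem KDU : S_KDU := by
  intro p _ F _ red E _ _ G _ B d
  exact ⟨fun U σ g hg => ⟨kdU_conj p red G B d U σ hg, kdGe_conj p red G B d U σ hg⟩,
    fun U hU => sum_kdU red G B d U hU⟩

end Pool.Agent.N521.DI
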