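import Pool.Agent.N73.BTbase
import Pool.Agent.N208.BT.Stm3

/-!
# Project BT (helper208), part P1: long roots correspond to long roots
-/

set_option autoImplicit false

noncomputable section

namespace Pool.Agent.N521.BTP1

open Matrix
open Pool.Agent.N208.BT
open Pool.Agent.N73.BT

variable {n : ℕ}

lemma hf_sum_single (x b : V n) : hf x b = ∑ j, x j * hf (Pi.single j 1) b := by
  have h := LinearMap.pi_apply_eq_sum_univ (hfL b) x
  have h4 : hfL b x = hf x b := rfl
  rw [← h4, h]
  refine Finset.sum_congr rfl fun j _ => ?_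
  rw [smul_eq_mul]
  congr 1
  have e : (fun k => if j = k then (1 : ℂ) else 0) = (Pi.single j 1 : V n) := by
    funext k
    rw [Pi.single_apply]
    by_cases hjk : j = k
    · rw [if_pos hjk, if_pos hjk.symm]
    · rw [if_neg hjk, if_neg (fun h => hjk h.symm)]
  rw [e]
  rfl

lemma trace_R (a b : V n) : (R a b).trace = hf a b := by
  rw [hf_sum_single]
  rfl

lemma RA (a b x : V n) : R a b *ᵥ x = hf x b • a := Pool.Agent.N73.BT.R_apply a b x

lemma hf_zero_right (y : V n) : hf y 0 = 0 := by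
  rw [hf_conj, hf_zero_left, star_zero]

lemma nondeg {x : V n} (hx : x ≠ 0) : ∃ b, hf x b ≠ 0 := by
  by_contra hcon
  push Not at hcon
  apply hx
  funext i
  refine Fin.cases ?_ ?_ i
  · have h1 := hcon (Pi.single 0 1)
    unfold hf at h1
    simpa using h1
  · intro i
    have h1 := hcon (Pi.single i.succ 1)
    unfold hf at h1
    simpa [Pi.single_apply] using h1

lemma R_mul (a b c d : V n) : R a b * R c d = hf c b • R a d := by
  apply mat_ext
  intro x
  rw [← Matrix.mulVec_mulVec, RA, RA, Matrix.smul_mulVec, RA, hf_smul_left,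
    smul_smul, mul_comm]

lemma mul_R (X : M n) (a b : V n) : X * R a b = R (X *ᵥ a) b := by
  apply mat_ext
  intro x
  rw [← Matrix.mulVec_mulVec, RA, RA, Matrix.mulVec_smul]

lemma sk_R (a : V n) : IsSk (Complex.I • R a a) := by
  intro x y
  rw [Matrix.smul_mulVec, Matrix.smul_mulVec, RA, RA, hf_smul_left, hf_smul_left,
    hf_smul_right, hf_smul_right, ← hf_conj]
  simp
  ring

lemma sk_add {X Y : M n} (hX : IsSk X) (hY : IsSk Y) : IsSk (X + Y) := by
  intro x y
  rw [Matrix.add_mulVec, Matrix.add_mulVec, hf_add_left, hf_add_right]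
  linear_combination hX x y + hY x y

lemma sk_one {c : ℂ} (hc : star c = -c) : IsSk (c • (1 : M n)) := by
  intro x y
  rw [Matrix.smul_mulVec, Matrix.smul_mulVec, Matrix.one_mulVec, Matrix.one_mulVec, hf_smul_left,
    hf_smul_right, hc]
  ring

/-- the double commutator -/
def ad2 (E : M n) : M n →ₗ[ℂ] M n where
  toFun Z := br E (br E Z)
  map_add' X Y := by rw [br_add, br_add]
  map_smul' c X := by rw [br_smul, br_smul]; rfl

/-- **Polarization**: a complex subspace with the unit and the isotropic `R x x` contains all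
`R a b`. -/
lemma all_R (hSU : S_SU) (W : Submodule ℂ (M n)) (h1 : (1 : M n) ∈ W)
    (h2 : ∀ x : V n, hf x x = 0 → Complex.I • R x x ∈ W) (a b : V n) : R a b ∈ W := by
  have hn : ((n : ℂ) + 1) ≠ 0 := by
    have := Nat.cast_add_one_ne_zero (R := ℂ) n
    exact this
  have h3 : ∀ X : M n, IsSk X → X.trace = 0 → X ∈ W := by
    intro X hX hX0
    have h4 := hSU n X hX hX0
    have h5 : Submodule.span ℝ {Y : M n | ∃ x : V n, hf x x = 0 ∧ Y = Complex.I • R x x} ≤
        W.restrictScalars ℝ := by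
      rw [Submodule.span_le]
      rintro Y ⟨x, hx, rfl⟩
      exact h2 x hx
    exact h5 h4
  have h4 : ∀ a : V n, R a a ∈ W := by
    intro a
    set c : ℂ := -(Complex.I * (hf a a / (n + 1))) with hc
    have hcs : star c = -c := by
      rw [hc, star_neg, star_mul', star_div₀, hf_self]
      simp
    have h5 := h3 (Complex.I • R a a + c • 1) (sk_add (sk_R a) (sk_one hcs)) (by
      rw [Matrix.trace_add, Matrix.trace_smul, Matrix.trace_smul, trace_R, Matrix.trace_one, hc]
      simp only [Fintype.card_fin, smul_eq_mul, Nat.cast_add, Nat.cast_one]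
      field_simp
      ring)
    have h6 : Complex.I • R a a ∈ W := by
      have := W.sub_mem h5 (W.smul_mem c h1)
      rwa [add_sub_cancel_right] at this
    have h7 := W.smul_mem (-Complex.I) h6
    rwa [smul_smul, neg_mul, Complex.I_mul_I, neg_neg, one_smul] at h7
  have h5 : ∀ a b : V n, R a b + R b a ∈ W := by
    intro a b
    have h6 := W.sub_mem (W.sub_mem (h4 (a + b)) (h4 a)) (h4 b)
    have h7 : R (a + b) (a + b) - R a a - R b b = R a b + R b a := by
      rw [R_add_left, R_add_right, R_add_right]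
      abel
    rwa [h7] at h6
  have h6 := W.add_mem (h5 a b) (W.smul_mem Complex.I (h5 a (Complex.I • b)))
  have h7 : R a b + R b a + Complex.I • (R a (Complex.I • b) + R (Complex.I • b) a) =
      (2 : ℂ) • R a b := by
    rw [R_smul_right, R_smul_left, smul_add, smul_smul, smul_smul]
    simp only [Complex.star_def, Complex.conj_I, mul_neg, Complex.I_mul_I, neg_neg]
    module
  rw [h7] at h6
  have h8 := W.smul_mem (2⁻¹ : ℂ) h6
  rwa [smul_smul, inv_mul_cancel₀ two_ne_zero, one_smul] at h8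

/-- a commutator relation implies nilpotency -/
lemma nilp {H E : M n} (h : br H E = (2 : ℂ) • E) : ∃ k, E ^ k = 0 := by
  by_contra hcon
  push Not at hcon
  have h1 : ∀ k : ℕ, br H (E ^ k) = ((2 * k : ℕ) : ℂ) • E ^ k := by
    intro k
    induction k with
    | zero =>
      unfold br
      simp
    | succ k ih =>
      have h2 : br H (E ^ (k + 1)) = br H (E ^ k) * E + E ^ k * br H E := by
        unfold br
        rw [pow_succ]
        noncomm_ring
      rw [h2, ih, h, smul_mul_assoc, mul_smul_comm, ← pow_succ, ← add_smul]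
      congr 1
      push_cast
      ring
  let f : Module.End ℂ (M n) :=
    { toFun := fun Z => br H Z
      map_add' := fun X Y => br_add H X Y
      map_smul' := fun c X => br_smul c H X }
  have h2 : ∀ k : ℕ, f.HasEigenvalue ((2 * k : ℕ) : ℂ) := by
    intro k
    refine Module.End.hasEigenvalue_of_hasEigenvector (x := E ^ k) ?_
    rw [Module.End.hasEigenvector_iff]
    exact ⟨Module.End.mem_eigenspace_iff.2 (h1 k), hcon k⟩
  have h3 : (Set.range fun k : ℕ => ((2 * k : ℕ) : ℂ)).Finite :=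
    (Module.End.finite_hasEigenvalue f).subset (by
      rintro _ ⟨k, rfl⟩
      exact h2 k)
  refine Set.infinite_range_of_injective ?_ h3
  intro a b hab
  have h5 : ((2 * a : ℕ) : ℂ) = ((2 * b : ℕ) : ℂ) := hab
  have h4 : 2 * a = 2 * b := by exact_mod_cast h5
  omega

lemma br_ad (E Z : M n) : br E (br E Z) = E * E * Z - (2 : ℂ) • (E * Z * E) + Z * (E * E) := by
  unfold br
  have : (2 : ℂ) • (E * Z * E) = E * Z * E + E * Z * E := two_smul ℂ _
  rw [this]
  noncomm_ring

/-- the operators with the double commutator property are long roots -/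
lemma rank_one {E : M n} (hE : E ≠ 0) (hs : IsSk E) (hnil : ∃ k, E ^ k = 0)
    (h : ∀ a b : V n, ∃ c : ℂ, br E (br E (R a b)) = c • E) :
    ∃ (s : ℝ) (u : V n), (s = 1 ∨ s = -1) ∧ u ≠ 0 ∧ hf u u = 0 ∧
      E = ((s : ℂ) * Complex.I) • R u u := by
  classical
  obtain ⟨k, hk, hmin⟩ : ∃ k, E ^ k = 0 ∧ ∀ j < k, E ^ j ≠ 0 :=
    ⟨Nat.find hnil, Nat.find_spec hnil, fun j hj => Nat.find_min hnil hj⟩
  have hk0 : k ≠ 0 := by
    rintro rfl
    rw [pow_zero] at hk
    apply hE
    rw [← mul_one E, hk, mul_zero]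
  have hk1 : k ≠ 1 := by
    rintro rfl
    rw [pow_one] at hk
    exact hE hk
  have hE2 : E * E = 0 := by
    by_contra hEE
    have hk3 : 3 ≤ k := by
      by_contra hlt
      have : k = 2 := by omega
      rw [this, pow_two] at hk
      exact hEE hk
    obtain ⟨j, rfl⟩ : ∃ j, k = j + 1 := ⟨k - 1, by omega⟩
    have hj := hmin j (by omega)
    obtain ⟨a, ha⟩ : ∃ a, E ^ j *ᵥ a ≠ 0 := by
      by_contra hcon
      push Not at hcon
      exact hj (mat_ext fun x => by rw [hcon, Matrix.zero_mulVec])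
    obtain ⟨x, hx⟩ : ∃ x, (E * E) *ᵥ x ≠ 0 := by
      by_contra hcon
      push Not at hcon
      exact hEE (mat_ext fun x => by rw [hcon, Matrix.zero_mulVec])
    obtain ⟨b, hb⟩ := nondeg hx
    obtain ⟨c, hc⟩ := h a b
    have h1 := congrArg (fun Z => E ^ j * Z) hc
    rw [br_ad, mul_add, mul_sub, mul_smul_comm, mul_smul_comm, ← mul_assoc, ← mul_assoc,
      ← mul_assoc, ← mul_assoc, ← mul_assoc, ← pow_succ, hk] at h1
    simp only [zero_mul, smul_zero, sub_zero, zero_add] at h1
    have h2 := congrArg (fun Z => Z *ᵥ x) h1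
    rw [mul_R, ← Matrix.mulVec_mulVec, RA, Matrix.zero_mulVec] at h2
    rcases smul_eq_zero.1 h2 with h3 | h3
    · exact hb h3
    · exact ha h3
  obtain ⟨y, hy⟩ : ∃ y, E *ᵥ y ≠ 0 := by
    by_contra hcon
    push Not at hcon
    exact hE (mat_ext fun x => by rw [hcon, Matrix.zero_mulVec])
  set p : V n := E *ᵥ y with hp
  obtain ⟨b, hb⟩ := nondeg hy
  have hrange : ∀ a, ∃ t : ℂ, E *ᵥ a = t • p := by
    intro a
    obtain ⟨c, hc⟩ := h a b
    rw [br_ad, hE2, zero_mul, mul_zero, add_zero, zero_sub] at hc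
    have h2 := congrArg (fun Z => Z *ᵥ y) hc
    rw [Matrix.neg_mulVec, Matrix.smul_mulVec, ← Matrix.mulVec_mulVec, ← hp, mul_R, RA,
      Matrix.smul_mulVec, ← hp] at h2
    refine ⟨-(c / (2 * hf p b)), ?_⟩
    have h3 : E *ᵥ a = (-(1 / (2 * hf p b))) • (-((2 : ℂ) • hf p b • E *ᵥ a)) := by
      rw [smul_smul, smul_neg, smul_smul, ← neg_smul]
      have : -(-(1 / (2 * hf p b)) * (2 * hf p b)) = 1 := by
        field_simp
      rw [this, one_smul]
    rw [h3, h2, smul_smul]
    congr 1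
    ring
  choose f hf' using hrange
  obtain ⟨z, hz⟩ : ∃ z, hf p z = 1 := by
    refine ⟨(star (hf p b))⁻¹ • b, ?_⟩
    rw [hf_smul_right, star_inv₀, star_star, inv_mul_cancel₀ hb]
  set κ : ℂ := -star (f z) with hκ
  have hEκ : E = κ • R p p := by
    apply mat_ext
    intro x
    have h1 := hs x z
    rw [hf' x, hf' z, hf_smul_left, hf_smul_right, hz, mul_one] at h1
    rw [hf' x, Matrix.smul_mulVec, RA, smul_smul]
    congr 1
    rw [hκ]
    linear_combination h1
  have hκ0 : κ ≠ 0 := by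
    intro h0
    rw [h0, zero_smul] at hEκ
    exact hE hEκ
  have hpp : hf p p = 0 := by
    have h1 := hE2
    rw [hEκ, smul_mul_assoc, mul_smul_comm, R_mul, smul_smul, smul_smul] at h1
    have hR : R p p ≠ 0 := by
      intro h0
      rw [h0, smul_zero] at hEκ
      exact hE hEκ
    rcases smul_eq_zero.1 h1 with h2 | h2
    · rcases mul_eq_zero.1 h2 with h3 | h3
      · exact absurd (mul_self_eq_zero.1 h3) hκ0
      · exact h3
    · exact absurd h2 hR
  have hκs : κ + star κ = 0 := by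
    have h1 := hs z z
    have hzp : hf z p = 1 := by rw [hf_conj, hz, star_one]
    rw [hEκ, Matrix.smul_mulVec, RA, hzp, one_smul, hf_smul_left, hf_smul_right, hz, hzp,
      mul_one, mul_one] at h1
    exact h1
  have hre : κ.re = 0 := by
    have h1 := congrArg Complex.re hκs
    simp at h1
    linarith
  set t : ℝ := κ.im with ht
  have hκt : κ = (t : ℂ) * Complex.I := by
    apply Complex.ext
    · simp [hre]
    · simp [ht]
  have ht0 : t ≠ 0 := by
    intro h0
    rw [h0] at hκt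
    exact hκ0 (by rw [hκt]; simp)
  have hp0 : p ≠ 0 := hy
  have key : ∀ s : ℝ, 0 < s * t → s * s = 1 → ((s : ℂ) * Complex.I) •
      R (((Real.sqrt (s * t) : ℝ) : ℂ) • p) (((Real.sqrt (s * t) : ℝ) : ℂ) • p) = E := by
    intro s hst hss
    rw [R_smul_left, R_smul_right, smul_smul, smul_smul, hEκ, hκt]
    congr 1
    have h1 : ((Real.sqrt (s * t) : ℝ) : ℂ) * ((Real.sqrt (s * t) : ℝ) : ℂ) = ((s * t : ℝ) : ℂ) := by
      rw [← Complex.ofReal_mul, Real.mul_self_sqrt hst.le]
    have h2 : star ((Real.sqrt (s * t) : ℝ) : ℂ) = ((Real.sqrt (s * t) : ℝ) : ℂ) :=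
      Complex.conj_ofReal _
    rw [h2, mul_assoc, h1]
    push_cast
    have h3 : ((s : ℂ)) * s = 1 := by exact_mod_cast hss
    linear_combination (Complex.I * t) * h3
  have hfin : ∀ s : ℝ, 0 < s * t → (((Real.sqrt (s * t) : ℝ) : ℂ) • p ≠ 0 ∧
      hf (((Real.sqrt (s * t) : ℝ) : ℂ) • p) (((Real.sqrt (s * t) : ℝ) : ℂ) • p) = 0) := by
    intro s hst
    constructor
    · refine smul_ne_zero ?_ hp0
      exact_mod_cast (Real.sqrt_pos.2 hst).ne'
    · rw [hf_smul_left, hf_smul_right, hpp, mul_zero, mul_zero]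
  rcases lt_or_gt_of_ne ht0 with hlt | hgt
  · have hst : 0 < (-1) * t := by linarith
    exact ⟨-1, _, Or.inr rfl, (hfin _ hst).1, (hfin _ hst).2, (key _ hst (by norm_num)).symm⟩
  · have hst : 0 < 1 * t := by linarith
    exact ⟨1, _, Or.inl rfl, (hfin _ hst).1, (hfin _ hst).2, (key _ hst (by norm_num)).symm⟩

theorem main (hSU : S_SU) : S_P1 := by
  intro n n' 𝔟 hb hi1 hi2 u v huu hvv huv E' hE'
  have hvu : hf v u = 1 := by rw [hf_conj, huv, star_one]
  have hu0 : u ≠ 0 := by
    rintro rfl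
    rw [hf_zero_left] at huv
    exact zero_ne_one huv
  have hbr : ∀ (X X' : M n) (Y Y' : M n'), (X, Y) ∈ 𝔟 → (X', Y') ∈ 𝔟 → (br X X', br Y Y') ∈ 𝔟 := by
    intro X X' Y Y' h1 h2
    exact hb.br _ h1 _ h2
  have hsub : ∀ (X X' : M n) (Y Y' : M n'), (X, Y) ∈ 𝔟 → (X', Y') ∈ 𝔟 → ∀ c : ℝ,
      X = (c : ℂ) • X' → Y = (c : ℂ) • Y' := by
    intro X X' Y Y' h1 h2 c hc
    have h3 : (X - (c : ℂ) • X', Y - (c : ℂ) • Y') ∈ 𝔟 := by
      have h4 := 𝔟.sub_mem h1 (𝔟.smul_mem c h2)
      rw [Prod.smul_mk, Prod.mk_sub_mk, ← Complex.coe_smul, ← Complex.coe_smul] at h4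
      exact h4
    rw [hc, sub_self] at h3
    exact sub_eq_zero.1 (hi2 _ h3)
  have hsk1 : ∀ (X : M n) (Y : M n'), (X, Y) ∈ 𝔟 → IsSk X := fun X Y h => hb.sk1 (X, Y) h
  have hsk2 : ∀ (X : M n) (Y : M n'), (X, Y) ∈ 𝔟 → IsSk Y := fun X Y h => hb.sk2 (X, Y) h
  obtain ⟨F', hF'⟩ := hb.all1 v hvv
  have hH := hbr _ _ _ _ hF' hE'
  have hHE := hbr _ _ _ _ hH hE'
  have hHeq : br (Complex.I • R v v) (Complex.I • R u u) = R u v - R v u := by
    unfold br
    simp only [smul_mul_assoc, mul_smul_comm, R_mul, huv, hvu, smul_smul,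
      Complex.I_mul_I, neg_smul, one_smul]
    abel
  have hHsk : IsSk (R u v - R v u) := by
    rw [← hHeq]
    exact hsk1 _ _ hH
  have hHu : (R u v - R v u) *ᵥ u = u := by
    rw [Matrix.sub_mulVec, RA, RA, huv, huu]
    simp
  have hHE2 : br (br (Complex.I • R v v) (Complex.I • R u u)) (Complex.I • R u u) =
      ((2 : ℝ) : ℂ) • (Complex.I • R u u) := by
    rw [hHeq, br_smul, br_R hHsk, hHu, ← two_smul ℂ (R u u), smul_comm]
    norm_num
  have hrel : br (br F' E') E' = ((2 : ℝ) : ℂ) • E' := hsub _ _ _ _ hHE hE' 2 hHE2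
  have hrel' : br (br F' E') E' = (2 : ℂ) • E' := by
    rw [hrel]
    norm_num
  have hnil := nilp hrel'
  have hE'0 : E' ≠ 0 := by
    rintro rfl
    have h1 := hi1 _ hE'
    have h2 := congrArg (fun Z => Z *ᵥ v) h1
    rw [Matrix.smul_mulVec, RA, hvu, one_smul, Matrix.zero_mulVec] at h2
    rcases smul_eq_zero.1 h2 with h3 | h3
    · exact Complex.I_ne_zero h3
    · exact hu0 h3
  have hEE : (Complex.I • R u u) * (Complex.I • R u u) = 0 := by
    rw [smul_mul_assoc, mul_smul_comm, R_mul, huu, zero_smul, smul_zero, smul_zero]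
  have hquad : ∀ (X : M n) (Y : M n'), (X, Y) ∈ 𝔟 → ∃ c : ℂ, br E' (br E' Y) = c • E' := by
    intro X Y hp
    have h1 := hbr _ _ _ _ hE' (hbr _ _ _ _ hE' hp)
    have hskX : IsSk X := hsk1 _ _ hp
    obtain ⟨k, hk⟩ : ∃ k : ℂ, k = 2 * hf (X *ᵥ u) u * (-Complex.I) := ⟨_, rfl⟩
    have hks : star k = k := by
      have h2 := hskX u u
      have h3 : star (hf (X *ᵥ u) u) = - hf (X *ᵥ u) u := by
        rw [← hf_conj]
        linear_combination h2
      rw [hk, star_mul', star_mul', h3]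
      simp
    have hkr : ((k.re : ℝ) : ℂ) = k := Complex.conj_eq_iff_re.1 hks
    have hfst : br (Complex.I • R u u) (br (Complex.I • R u u) X) =
        ((k.re : ℝ) : ℂ) • (Complex.I • R u u) := by
      rw [hkr, br_ad, hEE, zero_mul, mul_zero, add_zero, zero_sub, smul_mul_assoc,
        smul_mul_assoc, mul_smul_comm, mul_assoc, mul_R, R_mul, hk]
      simp only [smul_smul]
      rw [← neg_smul]
      congr 1
      ring
    exact ⟨_, hsub _ _ _ _ h1 hE' _ hfst⟩
  refine rank_one hE'0 (hsk2 _ _ hE') hnil ?_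
  intro a b
  have hW := all_R hSU ((ℂ ∙ E').comap (ad2 E')) (by
    rw [Submodule.mem_comap]
    have : ad2 E' 1 = 0 := by
      show br E' (br E' 1) = 0
      unfold br
      simp
    rw [this]
    exact Submodule.zero_mem _) (by
    intro x hx
    obtain ⟨X, hX⟩ := hb.all2 x hx
    obtain ⟨c, hc⟩ := hquad _ _ hX
    rw [Submodule.mem_comap]
    have hc' : ad2 E' (Complex.I • R x x) = c • E' := hc
    rw [hc']
    exact Submodule.smul_mem _ _ (Submodule.mem_span_singleton_self _)) a b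
  rw [Submodule.mem_comap, Submodule.mem_span_singleton] at hW
  obtain ⟨c, hc⟩ := hW
  exact ⟨c, hc.symm⟩

end Pool.Agent.N521.BTP1
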