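import Pool.Agent.N208.LC.Stm3
import Pool.Agent.N768.BGPD
import Pool.Agent.N163.BTRR2

/-!
# LC/HBG (helper208, subtask 6362): signature `(1, n)`, all full subalgebras contain the long roots
-/

set_option autoImplicit false
set_option linter.unusedSectionVars false

open Module Matrix

noncomputable section

namespace Pool.Agent.N521.LCHBG

open Pool.Agent.Y102 Pool.Agent.W516.DR Pool.Agent.H204R3.GP Pool.Agent.W516.KC
  Pool.Agent.H204R3.SP Pool.Agent.TH119.MX Pool.Agent.R917 Pool.Agent.N208.AM Pool.Agent.N208.AD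
  Pool.Agent.N208.BT Pool.Agent.N208.LC

variable {g : ℕ} {A : AbVar g} {z : Module.End ℚ A.H1} {al : ℝ}

/-! ### Burnside on the simple submodule -/

section burn

variable (h : HP A z al) {N : ℕ} {sg : Fin N → ℝ} {φ : VN N →ₗ[ℝ] (Fin g → ℂ)}
  (w : WN A z al N sg φ)

theorem real_smul (c : ℂ) (x : VN N) : c • x = c.re • x + c.im • (Complex.I • x) := by
  rw [← Complex.coe_smul, ← Complex.coe_smul, smul_smul, ← add_smul, Complex.re_add_im]

/-- the algebra of the matrices which come from endomorphisms commuting with `EA` -/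
def SB (h : HP A z al) (w : WN A z al N sg φ) : Subalgebra ℂ (MN N) where
  carrier := {m | ∃ y : Module.End ℝ (Fin g → ℂ), (∀ P ∈ A.EA, y * A.ext P = A.ext P * y) ∧
    ∀ x, y (φ x) = φ (m *ᵥ x)}
  mul_mem' := by
    rintro a b ⟨y, hy, h1⟩ ⟨y', hy', h1'⟩
    refine ⟨y * y', fun P hP => ?_, fun x => ?_⟩
    · rw [mul_assoc, hy' P hP, ← mul_assoc, hy P hP, mul_assoc]
    · rw [Module.End.mul_apply, h1', h1, Matrix.mulVec_mulVec]
  add_mem' := by
    rintro a b ⟨y, hy, h1⟩ ⟨y', hy', h1'⟩
    refine ⟨y + y', fun P hP => ?_, fun x => ?_⟩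
    · rw [add_mul, mul_add, hy P hP, hy' P hP]
    · rw [LinearMap.add_apply, h1, h1', Matrix.add_mulVec, map_add]
  algebraMap_mem' := by
    intro c
    refine ⟨c.re • (1 : Module.End ℝ (Fin g → ℂ)) + c.im • (al⁻¹ • A.ext z), fun P hP => ?_,
      fun x => ?_⟩
    · have e1 : A.ext z * A.ext P = A.ext P * A.ext z := by
        rw [← ext_mul, ← ext_mul, h.cen P hP]
      rw [add_mul, mul_add, smul_mul_assoc, smul_mul_assoc, smul_mul_assoc, mul_smul_comm,
        mul_smul_comm, mul_smul_comm, one_mul, mul_one, e1]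
    · rw [LinearMap.add_apply, LinearMap.smul_apply, LinearMap.smul_apply, LinearMap.smul_apply,
        Module.End.one_apply, ← w.mulI, ← map_smul, ← map_smul, ← map_add, ← real_smul,
        Algebra.algebraMap_eq_smul_one, Matrix.smul_mulVec, Matrix.one_mulVec]

include h w in
theorem burn (m : MN N) : ∃ y : Module.End ℝ (Fin g → ℂ),
    (∀ P ∈ A.EA, y * A.ext P = A.ext P * y) ∧ ∀ x, y (φ x) = φ (m *ᵥ x) := by
  refine Pool.Agent.N768.BG.burnside_mat w.pos (SB h w) (fun U hU => ?_) m
  refine w.simple U fun X hX x hx y hy => ?_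
  obtain ⟨m', hm'⟩ := Pool.Agent.N441.BGSJ.mat_NA h.toHQ w hX
  have h1 : m' ∈ SB h w := by
    refine ⟨A.ext X, fun P hP => ?_, hm'⟩
    rw [← ext_mul, ← ext_mul, A.NA_comm hX hP]
  have h2 := hU m' h1 x hx
  have h3 : y = m' *ᵥ x := w.inj (by rw [← hy, hm'])
  rw [h3]
  exact h2

/-! ### only one positive sign -/

include h w in
theorem eig_single {i : Fin N} (hi : sg i = 1) : Eig A z al (φ (Pi.single i 1)) := by
  have e1 : (fun k => (sg k : ℂ) * (Complex.I * (Pi.single i 1 : VN N) k)) =
      Complex.I • (Pi.single i 1 : VN N) := by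
    funext k
    by_cases hk : k = i
    · subst hk
      rw [hi, Pi.smul_apply, smul_eq_mul, Complex.ofReal_one, one_mul]
    · rw [Pi.smul_apply, Pi.single_eq_of_ne hk, mul_zero, mul_zero, smul_zero]
  have e2 := w.cx (Pi.single i 1)
  rw [e1, w.mulI] at e2
  change A.ext z _ = _
  have e3 : A.ext z (φ (Pi.single i 1)) = al • (Complex.I • φ (Pi.single i 1)) := by
    rw [e2, smul_smul, mul_inv_cancel₀ h.ne, one_smul]
  rw [e3, mul_smul, Complex.coe_smul]

include h w in
theorem unique_pos {i j : Fin N} (hi : sg i = 1) (hj : sg j = 1) : i = j := by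
  by_contra hij
  obtain ⟨y, hy, hm⟩ := burn h w (Matrix.single j j (1 : ℂ))
  have hmv : ∀ x : VN N, Matrix.single j j (1 : ℂ) *ᵥ x = Pi.single j (x j) := by
    intro x
    rw [Matrix.single_mulVec]
    funext k
    by_cases hk : k = j
    · subst hk
      simp
    · simp [hk]
  have hcr : ∀ P ∈ A.EA, ∀ (c : ℂ) (x : Fin g → ℂ), A.ext P (c • x) = c • A.ext P x :=
    fun P hP c x => AbVar.CR_complex A.endAlg (Submodule.subset_span ⟨P, hP, rfl⟩) c x
  -- `y` commutes with `i` on `V0`
  have hyI : ∀ v ∈ V0 A z al, y (Complex.I • v) = Complex.I • y v := by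
    intro v hv
    let D : Module.End ℝ (Fin g → ℂ) := y * AbVar.JJ - AbVar.JJ * y
    have hD : ∀ x, D x = y (Complex.I • x) - Complex.I • y x := fun x => rfl
    have h1 : ∀ P ∈ A.EA, D * A.ext P = A.ext P * D := by
      intro P hP
      refine LinearMap.ext fun x => ?_
      have e1 : ∀ x, y (A.ext P x) = A.ext P (y x) := fun x => LinearMap.congr_fun (hy P hP) x
      have e2 : y (Complex.I • A.ext P x) = A.ext P (y (Complex.I • x)) := by
        rw [← hcr P hP, e1]
      have e3 : Complex.I • y (A.ext P x) = A.ext P (Complex.I • y x) := by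
        rw [e1, hcr P hP]
      rw [Module.End.mul_apply, Module.End.mul_apply, hD, hD, map_sub, e2, e3]
    have h2 : ∀ x, D (φ x) = 0 := by
      intro x
      rw [hD, w.cx, hm, hm, w.cx, sub_eq_zero]
      congr 1
      rw [hmv, hmv]
      funext k
      by_cases hk : k = j
      · subst hk
        simp
      · simp [hk]
    have h3 := w.gen D h1 h2 v hv
    rw [hD, sub_eq_zero] at h3
    exact h3
  have hei := eig_single h w hi
  have hej := eig_single h w hj
  have hne : ∀ k : Fin N, φ (Pi.single k 1) ≠ 0 := by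
    intro k hk
    have h1 : (Pi.single k 1 : VN N) = 0 := w.inj (by rw [hk, map_zero])
    have h2 := congrFun h1 k
    rw [Pi.single_eq_same] at h2
    exact one_ne_zero h2
  have hspan := h.simple _ _ (hne i) hei hej
  have key : ∀ v ∈ Submodule.span ℂ {w | ∃ P ∈ A.EA, w = A.ext P (φ (Pi.single i 1))},
      Eig A z al v ∧ y v = 0 := by
    intro v hv
    induction hv using Submodule.span_induction with
    | mem v hv =>
      obtain ⟨P, hP, rfl⟩ := hv
      constructor
      · change A.ext z (A.ext P _) = _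
        have e1 : A.ext z (A.ext P (φ (Pi.single i 1))) = A.ext P (A.ext z (φ (Pi.single i 1))) := by
          rw [← Module.End.mul_apply, ← Module.End.mul_apply, ← ext_mul, ← ext_mul, h.cen P hP]
        rw [e1, show A.ext z (φ (Pi.single i 1)) = _ from hei, hcr P hP]
      · have e1 : y (A.ext P (φ (Pi.single i 1))) = A.ext P (y (φ (Pi.single i 1))) :=
          LinearMap.congr_fun (hy P hP) _
        rw [e1, hm, hmv, Pi.single_eq_of_ne (Ne.symm hij), Pi.single_zero, map_zero, map_zero]
    | zero =>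
      constructor
      · change A.ext z 0 = _
        rw [map_zero, smul_zero]
      · rw [map_zero]
    | add a b _ _ ha hb =>
      constructor
      · change A.ext z (a + b) = _
        rw [map_add, show A.ext z a = _ from ha.1, show A.ext z b = _ from hb.1, smul_add]
      · rw [map_add, ha.2, hb.2, add_zero]
    | smul c a _ ha =>
      constructor
      · change A.ext z (c • a) = _
        rw [hcr z h.mem, show A.ext z a = _ from ha.1, smul_comm]
      · have e1 : c • a = c.re • a + c.im • (Complex.I • a) := by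
          rw [← Complex.coe_smul, ← Complex.coe_smul, smul_smul, ← add_smul, Complex.re_add_im]
        rw [e1, map_add, map_smul, map_smul, hyI a (eig_mem_V0 h.mem rfl ha.1), ha.2, smul_zero,
          smul_zero, smul_zero, add_zero]
  have h1 := (key _ hspan).2
  rw [hm, hmv, Pi.single_eq_same] at h1
  exact hne j h1

end burn

/-! ### change of coordinates -/

section perm

variable {n : ℕ} {sg : Fin (n + 1) → ℝ} {φ : VN (n + 1) →ₗ[ℝ] (Fin g → ℂ)}
  {s : Fin (n + 1) → Fin (n + 1)}

/-- the change of coordinates -/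
def psi (φ : VN (n + 1) →ₗ[ℝ] (Fin g → ℂ)) (s : Fin (n + 1) → Fin (n + 1)) :
    V n →ₗ[ℝ] (Fin g → ℂ) := φ ∘ₗ (LinearMap.funLeft ℝ ℂ s)

theorem psi_apply (x : V n) : psi φ s x = φ (x ∘ s) := rfl

theorem comp_s (hs : ∀ k, s (s k) = k) (x : V n) : (x ∘ s) ∘ s = x := by
  funext k
  rw [Function.comp_apply, Function.comp_apply, hs]

theorem psi_comp (hs : ∀ k, s (s k) = k) (x : V n) : psi φ s (x ∘ s) = φ x := by
  rw [psi_apply, comp_s hs]

theorem hs_comp (hs : ∀ k, s (s k) = k) (hsg : ∀ k, sg k = sg1 n (s k)) (x y : V n) :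
    Pool.Agent.N208.BT.hs sg (x ∘ s) (y ∘ s) = hf x y := by
  rw [← hs_sg1]
  unfold Pool.Agent.N208.BT.hs
  have e := Equiv.sum_comp (⟨s, s, hs, hs⟩ : Fin (n + 1) ≃ Fin (n + 1))
    (fun k => ((sg1 n k : ℝ) : ℂ) * x k * star (y k))
  rw [← e]
  refine Finset.sum_congr rfl fun k _ => ?_
  rw [hsg k]
  rfl

theorem toWD (hs : ∀ k, s (s k) = k) (hsg : ∀ k, sg k = sg1 n (s k))
    (w : WN A z al (n + 1) sg φ) : WD A z al n (psi φ s) where
  inj := by
    intro x y hxy
    rw [psi_apply, psi_apply] at hxy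
    have h1 := w.inj hxy
    rw [← comp_s hs x, h1, comp_s hs]
  mulI := fun x => by
    rw [psi_apply, psi_apply]
    exact w.mulI (x ∘ s)
  cx := fun x => by
    rw [psi_apply, psi_apply, w.cx]
    congr 1
    funext k
    rw [Function.comp_apply, Function.comp_apply, hsg k]
    unfold sg1
    split_ifs
    · rw [Complex.ofReal_one, one_mul]
    · rw [Complex.ofReal_neg, Complex.ofReal_one, neg_one_mul]
  form := fun x y => by
    rw [psi_apply, psi_apply, ← w.form, hs_comp hs hsg]
  stab := fun X hX x => by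
    obtain ⟨y, hy⟩ := w.stab X hX (x ∘ s)
    exact ⟨y ∘ s, by rw [psi_comp hs, psi_apply, hy]⟩
  simple := fun U hU => by
    have h1 := w.simple (U.comap (LinearMap.funLeft ℂ ℂ s)) (by
      intro X hX x hx y hy
      refine hU X hX (x ∘ s) hx (y ∘ s) ?_
      rw [psi_comp hs, psi_comp hs]
      exact hy)
    rcases h1 with h1 | h1
    · left
      rw [eq_bot_iff]
      intro x hx
      have h2 : (x ∘ s : V n) ∈ U.comap (LinearMap.funLeft ℂ ℂ s) := by
        change ((x ∘ s) ∘ s) ∈ U
        rw [comp_s hs]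
        exact hx
      rw [h1, Submodule.mem_bot] at h2
      rw [Submodule.mem_bot, ← comp_s hs x, h2]
      rfl
    · right
      rw [eq_top_iff]
      intro x _
      have h2 : (x ∘ s : V n) ∈ U.comap (LinearMap.funLeft ℂ ℂ s) := by
        rw [h1]
        exact Submodule.mem_top
      change ((x ∘ s) ∘ s) ∈ U at h2
      rwa [comp_s hs] at h2
  gen := fun y h1 h2 => w.gen y h1 fun x => by
    rw [← psi_comp hs x]
    exact h2 _

theorem R_mulVec (a b x : V n) : R a b *ᵥ x = hf x b • a := by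
  have h1 : R a b = Rs (sg1 n) a b := by
    ext i j
    unfold R Rs
    rw [Matrix.of_apply, Matrix.of_apply, hs_sg1]
  rw [h1, Pool.Agent.N768.BG.Rs_mulVec, hs_sg1]

end perm

theorem main : S_HBG := by
  intro g A z Sg hB hE
  refine ⟨fun al ha => (hB.hp al ha).toHQ, hB.disj,
    fun D₁ h1 h2 a b ha hb hne _ => hB.sep D₁ h1 h2 a b ha hb hne, ?_⟩
  intro al ha N sg φ w
  have hp := hB.hp al ha
  have hm : Mixed sg := mixed_of hp.toHQ hp.ex (hE al ha) w
  refine ⟨hm, fun 𝔮 hq => ?_⟩
  obtain ⟨i, hi⟩ := hm.1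
  obtain ⟨n, rfl⟩ : ∃ n, N = n + 1 := ⟨N - 1, by have := w.pos; omega⟩
  let s : Fin (n + 1) → Fin (n + 1) := Equiv.swap i 0
  have hs : ∀ k, s (s k) = k := fun k => Equiv.swap_apply_self i 0 k
  have hsg : ∀ k, sg k = sg1 n (s k) := by
    intro k
    unfold sg1
    by_cases hk : k = i
    · subst hk
      have h1 : s k = 0 := Equiv.swap_apply_left k 0
      rw [if_pos h1, hi]
    · have h1 : s k ≠ 0 := by
        intro h1
        apply hk
        have h2 : s (s k) = s 0 := by rw [h1]
        rw [hs] at h2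
        rw [h2]
        exact Equiv.swap_apply_right i 0
      rw [if_neg h1]
      rcases w.isSg k with h2 | h2
      · exact absurd (unique_pos hp w h2 hi) hk
      · exact h2
  have hWD := toWD hs hsg w
  have hRR := Pool.Agent.N163.BTRR2.main g A z al hp n _ hWD 𝔮 hq
  have hbig := (local_main n _ hRR).resolve_right (s_S1 g A z Sg hB al ha n _ hWD 𝔮 hq)
  intro x hx
  have hx' : hf (x ∘ s) (x ∘ s) = 0 := by
    rw [← hs_comp hs hsg, comp_s hs, hx]
  obtain ⟨y, hy, h1⟩ := hbig (x ∘ s) hx'
  refine ⟨y, hy, fun v => ?_⟩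
  have e1 : φ v = psi φ s (v ∘ s) := (psi_comp hs v).symm
  rw [e1, h1, psi_apply]
  congr 1
  rw [Matrix.smul_mulVec, Matrix.smul_mulVec, R_mulVec, Pool.Agent.N768.BG.Rs_mulVec]
  have e2 : hf (v ∘ s) (x ∘ s) = Pool.Agent.N208.BT.hs sg v x := by
    rw [← hs_comp hs hsg, comp_s hs, comp_s hs]
  rw [e2]
  funext k
  change Complex.I • (Pool.Agent.N208.BT.hs sg v x • (x (s (s k)))) = _
  rw [hs]
  rfl

end Pool.Agent.N521.LCHBG
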