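import Pool.Agent.N906.NT.Stm

/-!
# NT/LO: the lower bound assembly
-/

set_option autoImplicit false

open Finset Filter Topology
open Pool.Agent.N906.NT

namespace Pool.Agent.N521.NT

theorem cx_Dl {n r : ℕ} (hr : 1 ≤ r) (hn : r + 2 ≤ n) : Cx (Dl n r) r (n.choose r) := by
  refine ⟨hr, Nat.choose_pos (by omega), ?_, ?_, ?_, ?_⟩
  · simp [Dl]
  · intro s hs s' hs'
    simp only [Dl, mem_filter, mem_univ, true_and] at hs ⊢
    exact (card_le_card hs').trans hs
  · intro s hs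
    simpa [Dl] using hs
  · have h : ((Dl n r).filter fun s => s.card = r) = (univ : Finset (Fin n)).powersetCard r := by
      ext s
      simp only [Dl, mem_filter, mem_univ, true_and, mem_powersetCard, subset_univ]
      omega
    rw [h, card_powersetCard, card_univ, Fintype.card_fin]

theorem pr_pos {n : ℕ} {D : Fin n → ℕ} (h : ∀ i, 1 ≤ D i) : 0 < pr D :=
  Finset.prod_pos fun i _ => h i

theorem rr_pos {n : ℕ} (D : Fin n → ℕ) : 0 < rr D :=
  Finset.prod_pos fun _ hp => (Nat.prime_of_mem_primeFactors hp).pos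

theorem gn_mul {n : ℕ} (D : Fin n → ℕ) : gn D * rr D = pr D := by
  unfold gn
  have h : (rr D : ℝ) ≠ 0 := by exact_mod_cast (rr_pos D).ne'
  field_simp

theorem gn_pos {n : ℕ} {D : Fin n → ℕ} (h : ∀ i, 1 ≤ D i) : 0 < gn D := by
  unfold gn
  have h1 : (0 : ℝ) < rr D := by exact_mod_cast rr_pos D
  have h2 : (0 : ℝ) < pr D := by exact_mod_cast pr_pos h
  positivity

theorem le_rr {n : ℕ} {D : Fin n → ℕ} {p : ℕ} (hp : p ∈ (pr D).primeFactors) : p ≤ rr D :=
  Nat.le_of_dvd (rr_pos D) (Finset.dvd_prod_of_mem _ hp)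

theorem sum_fac {n : ℕ} {D : Fin n → ℕ} (h : ∀ i, 1 ≤ D i) (p : ℕ) :
    ∑ i, (D i).factorization p = (pr D).factorization p := by
  unfold pr
  rw [Nat.factorization_prod (fun i _ => by have := h i; omega)]
  simp

theorem two_le_fac {n : ℕ} {D : Fin n → ℕ} (h : ∀ i, 1 ≤ D i) (hs : Sq D) {p : ℕ} (hp : p.Prime)
    (hd : p ∣ pr D) : 2 ≤ ∑ i, (D i).factorization p := by
  rw [sum_fac h]
  exact (hp.pow_dvd_iff_le_factorization (pr_pos h).ne').1 (hs p hp hd)

theorem D_eq {n : ℕ} {Δ : Finset (Finset (Fin n))} {z P : ℝ} {D D' x : Fin n → ℕ}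
    (hD : Tp Δ D) (hD' : Tp Δ D') (sD : Sq D) (sD' : Sq D')
    (hp : ∀ p ∈ (pr D).primeFactors, z < (p : ℝ) ∧ (p : ℝ) ≤ P)
    (hp' : ∀ p ∈ (pr D').primeFactors, z < (p : ℝ) ∧ (p : ℝ) ≤ P)
    (h : ∀ p : ℕ, p.Prime → z < (p : ℝ) → (p : ℝ) ≤ P →
        (p ∣ pr D → ∀ i, (x i).factorization p = (D i).factorization p) ∧
        (¬ p ∣ pr D → ∑ i, (x i).factorization p ≤ 1))
    (h' : ∀ p : ℕ, p.Prime → z < (p : ℝ) → (p : ℝ) ≤ P →
        (p ∣ pr D' → ∀ i, (x i).factorization p = (D' i).factorization p) ∧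
        (¬ p ∣ pr D' → ∑ i, (x i).factorization p ≤ 1)) : D = D' := by
  have key : ∀ {E E' : Fin n → ℕ}, Tp Δ E → Sq E →
      (∀ p ∈ (pr E).primeFactors, z < (p : ℝ) ∧ (p : ℝ) ≤ P) →
      (∀ p : ℕ, p.Prime → z < (p : ℝ) → (p : ℝ) ≤ P →
        (p ∣ pr E → ∀ i, (x i).factorization p = (E i).factorization p) ∧
        (¬ p ∣ pr E → ∑ i, (x i).factorization p ≤ 1)) →
      (∀ p : ℕ, p.Prime → z < (p : ℝ) → (p : ℝ) ≤ P →
        (p ∣ pr E' → ∀ i, (x i).factorization p = (E' i).factorization p) ∧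
        (¬ p ∣ pr E' → ∑ i, (x i).factorization p ≤ 1)) →
      ∀ p : ℕ, p.Prime → p ∣ pr E → p ∣ pr E' := by
    intro E E' hE sE hpE hE1 hE2 p pp hpd
    by_contra hn
    obtain ⟨hz, hP⟩ := hpE p (Nat.mem_primeFactors.2 ⟨pp, hpd, (pr_pos hE.1).ne'⟩)
    have h1 := two_le_fac hE.1 sE pp hpd
    have h2 := (hE2 p pp hz hP).2 hn
    have h3 := (hE1 p pp hz hP).1 hpd
    rw [sum_congr rfl fun i _ => h3 i] at h2
    omega
  funext i
  refine Nat.eq_of_factorization_eq (by have := hD.1 i; omega) (by have := hD'.1 i; omega) ?_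
  intro p
  by_cases pp : p.Prime
  · by_cases hd : p ∣ pr D
    · have hd' := key hD sD hp h h' p pp hd
      obtain ⟨hz, hP⟩ := hp p (Nat.mem_primeFactors.2 ⟨pp, hd, (pr_pos hD.1).ne'⟩)
      rw [← (h p pp hz hP).1 hd i, ← (h' p pp hz hP).1 hd' i]
    · have hd' : ¬ p ∣ pr D' := fun h0 => hd (key hD' sD' hp' h' h p pp h0)
      have e1 : ¬ p ∣ D i := fun h0 => hd (h0.trans (Finset.dvd_prod_of_mem _ (mem_univ i)))
      have e2 : ¬ p ∣ D' i := fun h0 => hd' (h0.trans (Finset.dvd_prod_of_mem _ (mem_univ i)))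
      rw [Nat.factorization_eq_zero_of_not_dvd e1, Nat.factorization_eq_zero_of_not_dvd e2]
  · rw [Nat.factorization_eq_zero_of_not_prime _ pp, Nat.factorization_eq_zero_of_not_prime _ pp]

/-- the exponent `j` -/
theorem exists_j {g T : ℝ} (hg : 0 < g) (hgT : g ≤ T) :
    ∃ j : ℕ, T ≤ 3 ^ j * g ∧ 3 ^ j * g ≤ 3 * T := by
  classical
  have hex : ∃ j : ℕ, T ≤ 3 ^ j * g := by
    obtain ⟨j, hj⟩ := pow_unbounded_of_one_lt (T / g) (by norm_num : (1 : ℝ) < 3)
    exact ⟨j, by rw [div_lt_iff₀ hg] at hj; exact hj.le⟩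
  refine ⟨Nat.find hex, Nat.find_spec hex, ?_⟩
  rcases Nat.eq_zero_or_pos (Nat.find hex) with h0 | h0
  · rw [h0, pow_zero, one_mul]
    linarith
  · have h1 := Nat.find_min hex (Nat.sub_lt h0 one_pos)
    push Not at h1
    have h2 : (3 : ℝ) ^ Nat.find hex = 3 * 3 ^ (Nat.find hex - 1) := by
      conv_lhs => rw [← Nat.sub_add_cancel h0]
      rw [pow_succ]
      ring
    rw [h2]
    linarith

theorem cst_pos {r t : ℕ} (hr : 1 ≤ r) (ht : 1 ≤ t) : 0 < cst r t := by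
  unfold cst
  have h1 : (0 : ℝ) < r := by exact_mod_cast hr
  have h2 : (0 : ℝ) < t := by exact_mod_cast ht
  positivity

theorem log_le_two_sqrt {L : ℝ} (hL : 0 < L) : Real.log L ≤ 2 * √L := by
  have h1 : Real.log L = 2 * Real.log (√L) := by
    rw [Real.log_sqrt hL.le]
    ring
  have h2 : Real.log (√L) ≤ √L - 1 := Real.log_le_sub_one_of_pos (Real.sqrt_pos.2 hL)
  linarith

theorem tend_W {κ ρ : ℝ} (hκ : 0 < κ) (hρ : 0 < ρ) :
    Tendsto (fun L : ℝ => (κ * L / Real.log L) ^ ρ) atTop atTop := by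
  have h1 : Tendsto (fun L : ℝ => (κ / 2 * √L) ^ ρ) atTop atTop :=
    (tendsto_rpow_atTop hρ).comp (Tendsto.const_mul_atTop (by positivity) Real.tendsto_sqrt_atTop)
  refine tendsto_atTop_mono' _ ?_ h1
  filter_upwards [eventually_gt_atTop (1 : ℝ)] with L hL
  have h0 : 0 < Real.log L := Real.log_pos hL
  refine Real.rpow_le_rpow (by positivity) ?_ hρ.le
  rw [le_div_iff₀ h0]
  have h2 := log_le_two_sqrt (by linarith : (0 : ℝ) < L)
  have h3 : √L * √L = L := Real.mul_self_sqrt (by linarith)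
  calc κ / 2 * √L * Real.log L ≤ κ / 2 * √L * (2 * √L) := by gcongr
    _ = κ * (√L * √L) := by ring
    _ = κ * L := by rw [h3]

theorem W_mono {κ ρ L Z : ℝ} (hκ : 0 < κ) (hκ1 : κ < 1) (hρ : 0 < ρ) (hL : Real.exp 1 ≤ κ * L)
    (hZ : κ * L ≤ Z) : (κ * L / Real.log L) ^ ρ ≤ (Z / Real.log Z) ^ ρ := by
  have he : (1 : ℝ) < Real.exp 1 := Real.one_lt_exp_iff.2 one_pos
  have hκL : 1 < κ * L := lt_of_lt_of_le he hL
  have hL0 : 0 < L := by
    by_contra h
    push Not at h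
    nlinarith
  have hLκ : κ * L ≤ L := by nlinarith
  have h1 : 0 < Real.log (κ * L) := Real.log_pos hκL
  have h2 : Real.log (κ * L) ≤ Real.log L := Real.log_le_log (by linarith) hLκ
  have h3 : 0 < Real.log Z := Real.log_pos (by linarith)
  have h0 : 0 < Real.log L := by linarith
  refine Real.rpow_le_rpow (by positivity) ?_ hρ.le
  have h4 : Real.log Z / Z ≤ Real.log (κ * L) / (κ * L) :=
    Real.log_div_self_antitoneOn hL (hL.trans hZ) hZ
  calc κ * L / Real.log L ≤ κ * L / Real.log (κ * L) := by gcongr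
    _ ≤ Z / Real.log Z := by
      rw [div_le_div_iff₀ (by linarith) (by linarith)] at h4
      rw [div_le_div_iff₀ h1 h3]
      linarith

theorem lo (h1 : S_WINN) (h2 : S_LOWN) : S_LO := by
  classical
  intro n r κ A ε hr hn hκ hκ3 hA hε hε1
  obtain ⟨c₁, c, C₀, hc₁, hc, hC₀, H2⟩ := h2 n r hr hn
  have hcx := cx_Dl hr hn
  set e : ℝ := min (ε / 2) (1 / 8) with he
  have he0 : 0 < e := by positivity
  have he1 : e ≤ ε / 2 := min_le_left _ _
  have he2 : e ≤ 1 / 8 := min_le_right _ _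
  obtain ⟨Z₀, hZ₀, H1⟩ := h1 n (Dl n r) r (n.choose r) e c₁ hcx he0 (by linarith) hc₁
  have hn0 : (1 : ℝ) ≤ n := by exact_mod_cast (by omega : 1 ≤ n)
  set K : ℝ := A * (n : ℝ) ^ n with hK
  have hK1 : 1 ≤ K := one_le_mul_of_one_le_of_one_le hA (one_le_pow₀ hn0)
  have hlK : 0 ≤ Real.log K := Real.log_nonneg hK1
  set ρ : ℝ := (r : ℝ) / (r + 1) with hρdef
  have hr0 : (0 : ℝ) < r := by exact_mod_cast hr
  have hρ : 0 < ρ := by positivity
  have hcst := cst_pos hr hcx.2.1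
  -- the conditions on `L = log X`
  have ev : ∀ᶠ L : ℝ in atTop, Z₀ ≤ κ * L ∧ C₀ ^ 2 ≤ κ * L ∧ (1 / e) ^ 2 ≤ κ * L ∧
      Real.log (9 * C₀) + 5 / 2 * Real.log K ≤ 1 / 6 * L ∧ Real.exp 1 ≤ κ * L ∧
      (Real.log 3 + Real.log K - Real.log c) / (ε / 2 * cst r (n.choose r)) ≤
        (κ * L / Real.log L) ^ ρ ∧ 2 ≤ L := by
    have t1 : Tendsto (fun L : ℝ => κ * L) atTop atTop := tendsto_id.const_mul_atTop hκ
    have t2 : Tendsto (fun L : ℝ => 1 / 6 * L) atTop atTop :=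
      tendsto_id.const_mul_atTop (by norm_num)
    exact (t1.eventually_ge_atTop _).and ((t1.eventually_ge_atTop _).and
      ((t1.eventually_ge_atTop _).and ((t2.eventually_ge_atTop _).and
      ((t1.eventually_ge_atTop _).and (((tend_W hκ hρ).eventually_ge_atTop _).and
      (eventually_ge_atTop 2))))))
  obtain ⟨L₀, hL₀⟩ := eventually_atTop.1 ev
  refine ⟨max 4 (Real.exp L₀), by have := le_max_left 4 (Real.exp L₀); linarith, fun X hX => ?_⟩
  have hX4 : 4 ≤ X := (le_max_left _ _).trans hX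
  have hX0 : 0 < X := by linarith
  set L := Real.log X with hL
  have hLL : L₀ ≤ L := by
    rw [hL, Real.le_log_iff_exp_le hX0]
    exact (le_max_right _ _).trans hX
  obtain ⟨q1, q2, q3, q4, q5, q6, q7⟩ := hL₀ L hLL
  set T : ℝ := K * X ^ κ with hT
  have hXκ : X ^ κ = Real.exp (κ * L) := by
    rw [Real.rpow_def_of_pos hX0, mul_comm]
  have hXκ1 : 1 ≤ X ^ κ := Real.one_le_rpow (by linarith) hκ.le
  have hT1 : 1 ≤ T := one_le_mul_of_one_le_of_one_le hK1 hXκ1
  have hT0 : 0 < T := by linarith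
  set Z : ℝ := Real.log T with hZ
  have hZe : Z = Real.log K + κ * L := by
    rw [hZ, hT, Real.log_mul (by linarith) (by linarith), hXκ, Real.log_exp]
  have hZκ : κ * L ≤ Z := by linarith
  have hTZ : T = Real.exp Z := (Real.exp_log hT0).symm
  have hZ0 : 0 < Z := by linarith
  obtain ⟨F0, HF, Hsum⟩ := H1 Z (by linarith)
  have hz : C₀ ≤ √Z := Real.le_sqrt_of_sq_le (by linarith)
  set P : ℝ := Real.exp (e * Z) with hP
  have hzP : √Z ≤ P := by
    have a1 : 1 / e ≤ √Z := Real.le_sqrt_of_sq_le (by linarith)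
    have a2 : √Z * √Z = Z := Real.mul_self_sqrt hZ0.le
    have a3 : e * Z + 1 ≤ P := Real.add_one_le_exp _
    have a4 : 1 ≤ e * √Z := by
      rw [div_le_iff₀ he0] at a1
      linarith
    have a5 : √Z ≤ e * Z := by
      calc √Z = 1 * √Z := by ring
        _ ≤ e * √Z * √Z := by gcongr
        _ = e * (√Z * √Z) := by ring
        _ = e * Z := by rw [a2]
    linarith
  have hrr : ∀ D ∈ F0, (rr D : ℝ) ≤ P := by
    intro D hD
    have h := (HF D hD).2.2.2.2.1
    have h0 : (0 : ℝ) < rr D := by exact_mod_cast rr_pos D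
    rwa [Real.log_le_iff_le_exp h0] at h
  have hpf : ∀ D ∈ F0, ∀ p ∈ (pr D).primeFactors, √Z < (p : ℝ) ∧ (p : ℝ) ≤ P := by
    intro D hD p hp
    refine ⟨(HF D hD).2.2.1 p hp, le_trans ?_ (hrr D hD)⟩
    exact_mod_cast le_rr hp
  have hmain : ∀ D ∈ F0, ∃ (j : ℕ) (F : Finset (Fin n → ℤ)),
      T ≤ 3 ^ j * gn D ∧ 3 ^ j * gn D ≤ 3 * T ∧
      (∀ x ∈ F, ∑ i, x i = 0 ∧ (∀ i, x i ≠ 0) ∧ NV x ∧ Tp (Dl n r) (ab x) ∧ (∀ i, |(x i : ℝ)| ≤ X) ∧
      (∃ i, X / n ≤ |(x i : ℝ)|) ∧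
      (3 : ℝ) ^ j * gn D ≤ gn (ab x) ∧
      ∀ p : ℕ, p.Prime → √Z < (p : ℝ) → (p : ℝ) ≤ P →
        (p ∣ pr D → ∀ i, (x i).natAbs.factorization p = (D i).factorization p) ∧
        (¬ p ∣ pr D → ∑ i, (x i).natAbs.factorization p ≤ 1)) ∧
      c * X ^ (n - 1) / ((3 : ℝ) ^ j * pr D) ≤ F.card := by
    intro D hD
    obtain ⟨b1, b2, b3, b4, b5, b6⟩ := HF D hD
    have hg := gn_pos b1.1
    have hgT : gn D ≤ T := by
      rwa [Real.log_le_iff_le_exp hg, ← hTZ] at b4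
    obtain ⟨j, hj1, hj2⟩ := exists_j hg hgT
    have hpr : (3 : ℝ) ^ j * pr D ≤ 3 * T * P := by
      rw [← gn_mul D, ← mul_assoc]
      exact mul_le_mul hj2 (hrr D hD) (by positivity) (by positivity)
    have hXX : C₀ * ((3 : ℝ) ^ j * pr D) ^ 2 * P ^ 2 ≤ X := by
      have hp0 : (0 : ℝ) ≤ (3 : ℝ) ^ j * pr D := by positivity
      calc C₀ * ((3 : ℝ) ^ j * pr D) ^ 2 * P ^ 2 ≤ C₀ * (3 * T * P) ^ 2 * P ^ 2 := by gcongr
        _ = 9 * C₀ * (T ^ 2 * P ^ 4) := by ring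
        _ = Real.exp (Real.log (9 * C₀) + (2 * Z + 4 * (e * Z))) := by
            rw [Real.exp_add, Real.exp_log (by linarith), Real.exp_add, hTZ, hP]
            rw [← Real.exp_nat_mul, ← Real.exp_nat_mul]
            norm_num
        _ ≤ Real.exp L := by
            apply Real.exp_le_exp.2
            have a1 : e * Z ≤ 1 / 8 * Z := by gcongr
            have a2 : κ * L ≤ 1 / 3 * L := by
              have : 0 ≤ L := by linarith
              gcongr
            linarith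
        _ = X := Real.exp_log hX0
    obtain ⟨F, hF1, hF2⟩ := H2 X (√Z) P j D b1 b2 hz (hpf D hD) hzP b6 hXX
    exact ⟨j, F, hj1, hj2, hF1, hF2⟩
  choose! j F G1 G2 G3 G4 using hmain
  refine ⟨F0.biUnion F, ?_, ?_⟩
  · intro x hx
    obtain ⟨D, hD, hxD⟩ := mem_biUnion.1 hx
    obtain ⟨g1, g2, g3, g4, g5, g6, g7, g8⟩ := G3 D hD x hxD
    refine ⟨g1, g2, g3, g4, g5, ?_⟩
    obtain ⟨i, hi⟩ := g6
    refine ⟨i, ?_⟩
    have hn1 : (0 : ℝ) < n := by linarith
    -- `rr (ab x) ≤ X ^ n / T`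
    have a1 : T ≤ gn (ab x) := (G1 D hD).trans g7
    have a2 : (pr (ab x) : ℝ) ≤ X ^ n := by
      unfold pr
      push_cast
      calc ∏ k, ((ab x k : ℕ) : ℝ) ≤ ∏ _k : Fin n, X := by
            refine prod_le_prod (fun _ _ => by positivity) fun k _ => ?_
            have := g5 k
            unfold ab
            rwa [Nat.cast_natAbs, Int.cast_abs]
        _ = X ^ n := by simp
    have a3 : T * rr (ab x) ≤ X ^ n := by
      have := gn_mul (ab x)
      calc T * (rr (ab x) : ℝ) ≤ gn (ab x) * rr (ab x) := by gcongr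
        _ = pr (ab x) := this
        _ ≤ X ^ n := a2
    have a4 : A * (rr (ab x) : ℝ) ≤ (X / n) ^ ((n : ℝ) - κ) := by
      have b1 : (X / n) ^ ((n : ℝ) - κ) = X ^ n / X ^ κ / ((n : ℝ) ^ n / (n : ℝ) ^ κ) := by
        rw [Real.div_rpow hX0.le hn1.le, Real.rpow_sub hX0, Real.rpow_sub hn1, Real.rpow_natCast,
          Real.rpow_natCast]
      have b2 : (n : ℝ) ^ n / (n : ℝ) ^ κ ≤ (n : ℝ) ^ n :=
        div_le_self (by positivity) (Real.one_le_rpow hn0 hκ.le)
      rw [b1]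
      calc A * (rr (ab x) : ℝ) ≤ X ^ n / X ^ κ / (n : ℝ) ^ n := by
            rw [div_div, le_div_iff₀ (by positivity)]
            calc A * (rr (ab x) : ℝ) * (X ^ κ * (n : ℝ) ^ n) = T * rr (ab x) := by
                  rw [hT, hK]
                  ring
              _ ≤ X ^ n := a3
        _ ≤ X ^ n / X ^ κ / ((n : ℝ) ^ n / (n : ℝ) ^ κ) := by
            gcongr
    refine a4.trans (Real.rpow_le_rpow (by positivity) hi ?_)
    linarith
  · have hdisj : ∀ D ∈ F0, ∀ D' ∈ F0, D ≠ D' → Disjoint (F D) (F D') := by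
      intro D hD D' hD' hne
      rw [Finset.disjoint_left]
      intro x hx hx'
      refine hne (D_eq (x := ab x) (HF D hD).1 (HF D' hD').1 (HF D hD).2.1 (HF D' hD').2.1
        (hpf D hD) (hpf D' hD') ?_ ?_)
      · exact (G3 D hD x hx).2.2.2.2.2.2.2
      · exact (G3 D' hD' x hx').2.2.2.2.2.2.2
    rw [card_biUnion hdisj]
    push_cast
    have b1 : ∀ D ∈ F0, c * X ^ (n - 1) / (3 * T) * (1 / (rr D : ℝ)) ≤ ((F D).card : ℝ) := by
      intro D hD
      refine le_trans ?_ (G4 D hD)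
      have h0 : (0 : ℝ) < rr D := by exact_mod_cast rr_pos D
      have h3 : (0 : ℝ) < pr D := by exact_mod_cast pr_pos (HF D hD).1.1
      rw [← gn_mul D] at h3 ⊢
      have h4 := G2 D hD
      have h5 : 0 < gn D := gn_pos (HF D hD).1.1
      have h6 : (3 : ℝ) ^ j D * (gn D * rr D) = 3 ^ j D * gn D * rr D := by ring
      rw [div_mul_div_comm, mul_one, h6]
      gcongr
    refine le_trans ?_ (sum_le_sum b1)
    rw [← mul_sum]
    refine le_trans ?_ (mul_le_mul_of_nonneg_left Hsum (by positivity))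
    have b2 : c * X ^ (n - 1) / (3 * T) =
        Real.exp (Real.log c + ((n : ℝ) - 1) * L - Real.log 3 - Z) := by
      rw [Real.exp_sub, Real.exp_sub, Real.exp_add, Real.exp_log hc, Real.exp_log (by norm_num),
        ← hTZ, div_div]
      congr 2
      have h5 : ((n : ℝ) - 1) * L = ((n - 1 : ℕ) : ℝ) * L := by
        rw [Nat.cast_sub (by omega)]
        simp
      rw [h5, Real.exp_nat_mul, Real.exp_log hX0]
    rw [b2, ← Real.exp_add]
    apply Real.exp_le_exp.2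
    have b3 := W_mono hκ (by linarith : κ < 1) hρ q5 hZκ
    have b4 : 0 ≤ (κ * L / Real.log L) ^ ρ := by
      have : 0 < Real.log L := Real.log_pos (by linarith)
      have : 0 < κ * L := by linarith
      positivity
    rw [div_le_iff₀ (by positivity)] at q6
    set W := (κ * L / Real.log L) ^ ρ
    set W' := (Z / Real.log Z) ^ ρ
    have b5 : (1 - e) * cst r (n.choose r) * W ≤ (1 - e) * cst r (n.choose r) * W' := by
      have : 0 < 1 - e := by linarith
      gcongr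
    have b6 : (1 - ε / 2) * cst r (n.choose r) * W ≤ (1 - e) * cst r (n.choose r) * W := by
      gcongr
    have b7 : (1 - ε / 2) * cst r (n.choose r) * W = (1 - ε) * cst r (n.choose r) * W +
        W * (ε / 2 * cst r (n.choose r)) := by ring
    linarith

end Pool.Agent.N521.NT
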