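import Mathlib
import Pool.Agent.N988.EU.Stm

/-!
# Project EU (helper988), OSSS: the inequality of O'Donnell, Saks, Schramm and Servedio (helper521)
-/

set_option autoImplicit false

namespace Pool.Agent.N521.EU

open MeasureTheory Set Filter
open Pool.Agent.N988.EA Pool.Agent.N988.EC Pool.Agent.N988.EP Pool.Agent.N988.ES
open Pool.Agent.N988.ET Pool.Agent.N988.EU

noncomputable section

/-- The weights of one bit. -/
def cw (p : ℝ) (b : Bool) : ℝ := if b then 1 - p else p

variable {ι : Type} [Fintype ι] [DecidableEq ι]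

/-- The expectation as a finite sum. -/
def E (p : ℝ) (f : (ι → Bool) → ℝ) : ℝ := ∑ w, (∏ i, cw p (w i)) * f w

theorem prob {p : ℝ} (h0 : 0 ≤ p) (h1 : p ≤ 1) : IsProbabilityMeasure (coin (1 - p)) := by
  constructor
  unfold coin
  simp only [Measure.coe_add, Measure.coe_smul, Pi.add_apply, Pi.smul_apply, measure_univ,
    smul_eq_mul, mul_one]
  rw [← ENNReal.ofReal_add (by linarith) (by linarith)]
  simp

theorem coin_real {p : ℝ} (h0 : 0 ≤ p) (h1 : p ≤ 1) (b : Bool) :
    (coin (1 - p)).real {b} = cw p b := by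
  unfold Measure.real coin cw
  cases b
  · simp [h0]
  · simp [h1]

theorem int_eq {p : ℝ} (h0 : 0 ≤ p) (h1 : p ≤ 1) (f : (ι → Bool) → ℝ) :
    ∫ w, f w ∂(bits ι p) = E p f := by
  have := prob h0 h1
  have hP : IsProbabilityMeasure (bits ι p) := by
    unfold bits
    infer_instance
  rw [integral_fintype Integrable.of_finite]
  unfold E
  refine Finset.sum_congr rfl fun w _ => ?_
  rw [smul_eq_mul]
  congr 1
  unfold bits Measure.real
  rw [Measure.pi_singleton, ENNReal.toReal_prod]
  exact Finset.prod_congr rfl fun i _ => coin_real h0 h1 (w i)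

theorem split (p : ℝ) (e : ι) (f : (ι → Bool) → ℝ) : E p f =
    ∑ v : {j // j ≠ e} → Bool, (∏ j, cw p (v j)) *
      (p * f ((Equiv.funSplitAt e Bool).symm (false, v)) +
        (1 - p) * f ((Equiv.funSplitAt e Bool).symm (true, v))) := by
  unfold E
  rw [← Equiv.sum_comp (Equiv.funSplitAt e Bool).symm, Fintype.sum_prod_type, Fintype.sum_bool,
    ← Finset.sum_add_distrib]
  refine Finset.sum_congr rfl fun v _ => ?_
  have h : ∀ b, (∏ i, cw p ((Equiv.funSplitAt e Bool).symm (b, v) i)) =
      cw p b * ∏ j, cw p (v j) := by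
    intro b
    rw [Fintype.prod_eq_mul_prod_subtype_ne _ e]
    congr 1
    · simp [Equiv.funSplitAt, Equiv.piSplitAt]
    · refine Finset.prod_congr rfl fun j _ => ?_
      simp [Equiv.funSplitAt, Equiv.piSplitAt, j.2]
  rw [h, h]
  simp only [cw]
  simp only [if_true, Bool.false_eq_true, if_false]
  ring

theorem upd (e : ι) (b β : Bool) (v : {j // j ≠ e} → Bool) :
    Function.update ((Equiv.funSplitAt e Bool).symm (b, v)) e β =
      (Equiv.funSplitAt e Bool).symm (β, v) := by
  funext j
  by_cases hj : j = e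
  · subst hj
    simp [Equiv.funSplitAt, Equiv.piSplitAt]
  · simp [Equiv.funSplitAt, Equiv.piSplitAt, hj]

theorem key (p : ℝ) (e : ι) (f : (ι → Bool) → ℝ) : E p f =
    p * E p (fun w => f (Function.update w e false)) +
      (1 - p) * E p (fun w => f (Function.update w e true)) := by
  rw [split p e f, split p e (fun w => f (Function.update w e false)),
    split p e (fun w => f (Function.update w e true))]
  simp only [upd]
  rw [Finset.mul_sum, Finset.mul_sum, ← Finset.sum_add_distrib]
  refine Finset.sum_congr rfl fun v _ => ?_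
  ring

theorem E_const {p : ℝ} (h0 : 0 ≤ p) (h1 : p ≤ 1) (c : ℝ) :
    E p (fun _ : ι → Bool => c) = c := by
  have := prob h0 h1
  have hP : IsProbabilityMeasure (bits ι p) := by
    unfold bits
    infer_instance
  rw [← int_eq h0 h1]
  simp

theorem E_mul (p c : ℝ) (f : (ι → Bool) → ℝ) : E p (fun w => c * f w) = c * E p f := by
  unfold E
  rw [Finset.mul_sum]
  exact Finset.sum_congr rfl fun w _ => by ring

theorem E_sub (p : ℝ) (f g : (ι → Bool) → ℝ) : E p (fun w => f w - g w) = E p f - E p g := by
  unfold E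
  rw [← Finset.sum_sub_distrib]
  exact Finset.sum_congr rfl fun w _ => by ring

theorem E_mono {p : ℝ} (h0 : 0 ≤ p) (h1 : p ≤ 1) {f g : (ι → Bool) → ℝ} (h : ∀ w, f w ≤ g w) :
    E p f ≤ E p g := by
  unfold E
  refine Finset.sum_le_sum fun w _ => mul_le_mul_of_nonneg_left (h w) ?_
  refine Finset.prod_nonneg fun i _ => ?_
  unfold cw
  split_ifs <;> linarith

/-- The influence. -/
def Inf (p : ℝ) (G : (ι → Bool) → ℝ) (i : ι) : ℝ :=
  E p (fun w => |G (Function.update w i false) - G (Function.update w i true)|)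

theorem Inf_nonneg {p : ℝ} (h0 : 0 ≤ p) (h1 : p ≤ 1) (G : (ι → Bool) → ℝ) (i : ι) :
    0 ≤ Inf p G i := by
  have h := E_mono h0 h1 (f := fun _ : ι → Bool => (0 : ℝ))
    (g := fun w => |G (Function.update w i false) - G (Function.update w i true)|)
    (fun w => abs_nonneg _)
  rwa [E_const h0 h1] at h

theorem Inf_split (p : ℝ) (G : (ι → Bool) → ℝ) {i e : ι} (hi : i ≠ e) :
    p * Inf p (fun w => G (Function.update w e false)) i +
      (1 - p) * Inf p (fun w => G (Function.update w e true)) i = Inf p G i := by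
  unfold Inf
  rw [key p e (fun w => |G (Function.update w i false) - G (Function.update w i true)|)]
  have h : ∀ (w : ι → Bool) (a b : Bool), Function.update (Function.update w i a) e b =
      Function.update (Function.update w e b) i a := fun w a b =>
    Function.update_comm hi _ _ _
  simp only [h]

theorem Inf_same {p : ℝ} (h0 : 0 ≤ p) (h1 : p ≤ 1) (G : (ι → Bool) → ℝ) (e : ι) (b : Bool) :
    Inf p (fun w => G (Function.update w e b)) e = 0 := by
  unfold Inf
  simp only [Function.update_idem, sub_self, abs_zero]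
  exact E_const h0 h1 0

theorem qr_nonneg {p : ℝ} (h0 : 0 ≤ p) (h1 : p ≤ 1) (T : Pool.Agent.N988.ET.Tree ι) (i : ι) :
    0 ≤ qr p T i := by
  induction T with
  | stop => exact le_rfl
  | ask e t u iht ihu =>
    show 0 ≤ (if i = e then (1 : ℝ) else 0) + p * qr p t i + (1 - p) * qr p u i
    have h2 : (0 : ℝ) ≤ if i = e then 1 else 0 := by split_ifs <;> norm_num
    have h3 := mul_nonneg h0 iht
    have h4 := mul_nonneg (sub_nonneg.2 h1) ihu
    linarith

theorem main {p : ℝ} (h0 : 0 ≤ p) (h1 : p ≤ 1) (T : Pool.Agent.N988.ET.Tree ι) :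
    ∀ F G : (ι → Bool) → ℝ, (∀ w, F w ∈ Icc (0 : ℝ) 1) → Decides T F →
      E p (fun w => F w * G w) - E p F * E p G ≤ p * (1 - p) * ∑ i, qr p T i * Inf p G i := by
  induction T with
  | stop =>
    intro F G _ hD
    have hc : ∀ w, F w = F (fun _ => false) := fun w => hD w _
    have e1 : E p (fun w => F w * G w) = F (fun _ => false) * E p G := by
      rw [← E_mul]
      congr 1
      funext w
      rw [hc w]
    have e2 : E p F = F (fun _ => false) := by
      rw [← E_const (ι := ι) h0 h1 (F (fun _ => false))]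
      congr 1
      funext w
      rw [hc w]
    rw [e1, e2, sub_self]
    refine le_of_eq ?_
    have : ∀ i : ι, qr p (Pool.Agent.N988.ET.Tree.stop : Pool.Agent.N988.ET.Tree ι) i = 0 := fun i => rfl
    simp only [this, zero_mul, Finset.sum_const_zero, mul_zero]
  | ask e t u iht ihu =>
    intro F G hF hD
    obtain ⟨hD0, hD1⟩ := hD
    set F0 : (ι → Bool) → ℝ := fun w => F (Function.update w e false) with hF0
    set F1 : (ι → Bool) → ℝ := fun w => F (Function.update w e true) with hF1
    set G0 : (ι → Bool) → ℝ := fun w => G (Function.update w e false) with hG0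
    set G1 : (ι → Bool) → ℝ := fun w => G (Function.update w e true) with hG1
    have a00 := iht F0 G0 (fun w => hF _) hD0
    have a01 := iht F0 G1 (fun w => hF _) hD0
    have a10 := ihu F1 G0 (fun w => hF _) hD1
    have a11 := ihu F1 G1 (fun w => hF _) hD1
    have kF : E p F = p * E p F0 + (1 - p) * E p F1 := key p e F
    have kG : E p G = p * E p G0 + (1 - p) * E p G1 := key p e G
    have kFG : E p (fun w => F w * G w) =
        p * E p (fun w => F0 w * G0 w) + (1 - p) * E p (fun w => F1 w * G1 w) :=
      key p e (fun w => F w * G w)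
    -- the first term
    have hfirst : E p (fun w => F0 w * G0 w) - E p (fun w => F0 w * G1 w) -
        (E p (fun w => F1 w * G0 w) - E p (fun w => F1 w * G1 w)) ≤ Inf p G e := by
      rw [← E_sub, ← E_sub, ← E_sub]
      refine E_mono h0 h1 fun w => ?_
      have b0 := hF (Function.update w e false)
      have b1 := hF (Function.update w e true)
      have e1 : F0 w * G0 w - F0 w * G1 w - (F1 w * G0 w - F1 w * G1 w) =
          (F0 w - F1 w) * (G0 w - G1 w) := by ring
      rw [e1]
      refine (le_abs_self _).trans ?_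
      rw [abs_mul]
      have e2 : |F0 w - F1 w| ≤ 1 := by
        rw [abs_le]
        constructor
        · linarith [b0.1, b1.2]
        · linarith [b0.2, b1.1]
      calc |F0 w - F1 w| * |G0 w - G1 w| ≤ 1 * |G0 w - G1 w| :=
            mul_le_mul_of_nonneg_right e2 (abs_nonneg _)
        _ = |G0 w - G1 w| := one_mul _
    -- the sum
    have hsum : ∑ i, (p * qr p t i + (1 - p) * qr p u i) *
        (p * Inf p G0 i + (1 - p) * Inf p G1 i) ≤
        ∑ i, (p * qr p t i + (1 - p) * qr p u i) * Inf p G i := by
      refine Finset.sum_le_sum fun i _ => ?_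
      by_cases hi : i = e
      · subst hi
        rw [hG0, hG1, Inf_same h0 h1 G i false, Inf_same h0 h1 G i true]
        have h3 := mul_nonneg h0 (qr_nonneg h0 h1 t i)
        have h4 := mul_nonneg (sub_nonneg.2 h1) (qr_nonneg h0 h1 u i)
        have h5 := mul_nonneg (add_nonneg h3 h4) (Inf_nonneg h0 h1 G i)
        linarith
      · rw [hG0, hG1, Inf_split p G hi]
    have hrhs : ∑ i, qr p (Pool.Agent.N988.ET.Tree.ask e t u) i * Inf p G i = Inf p G e +
        ∑ i, (p * qr p t i + (1 - p) * qr p u i) * Inf p G i := by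
      have e1 : ∀ i, qr p (Pool.Agent.N988.ET.Tree.ask e t u) i * Inf p G i =
          (if i = e then Inf p G i else 0) +
            (p * qr p t i + (1 - p) * qr p u i) * Inf p G i := by
        intro i
        show ((if i = e then (1 : ℝ) else 0) + p * qr p t i + (1 - p) * qr p u i) * Inf p G i = _
        split_ifs <;> ring
      rw [Finset.sum_congr rfl fun i _ => e1 i, Finset.sum_add_distrib,
        Finset.sum_ite_eq' Finset.univ e, if_pos (Finset.mem_univ e)]
    have hexp : ∑ i, (p * qr p t i + (1 - p) * qr p u i) *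
        (p * Inf p G0 i + (1 - p) * Inf p G1 i) =
        p * p * ∑ i, qr p t i * Inf p G0 i + p * (1 - p) * ∑ i, qr p t i * Inf p G1 i +
        (1 - p) * p * ∑ i, qr p u i * Inf p G0 i +
        (1 - p) * (1 - p) * ∑ i, qr p u i * Inf p G1 i := by
      simp only [Finset.mul_sum]
      rw [← Finset.sum_add_distrib, ← Finset.sum_add_distrib, ← Finset.sum_add_distrib]
      exact Finset.sum_congr rfl fun i _ => by ring
    have hpq : 0 ≤ p * (1 - p) := mul_nonneg h0 (sub_nonneg.2 h1)
    have q0 : 0 ≤ 1 - p := sub_nonneg.2 h1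
    have c00 := mul_le_mul_of_nonneg_left a00 (mul_nonneg h0 h0)
    have c01 := mul_le_mul_of_nonneg_left a01 (mul_nonneg h0 q0)
    have c10 := mul_le_mul_of_nonneg_left a10 (mul_nonneg q0 h0)
    have c11 := mul_le_mul_of_nonneg_left a11 (mul_nonneg q0 q0)
    have cf := mul_le_mul_of_nonneg_left hfirst hpq
    have cs := mul_le_mul_of_nonneg_left hsum hpq
    rw [hexp] at cs
    rw [hrhs, kFG, kF, kG]
    nlinarith [c00, c01, c10, c11, cf, cs]

/-- **OSSS.** -/
theorem t_OSSS : S_OSSS := by
  intro ι _ _ p h0 h1 T F G hF hD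
  rw [int_eq h0 h1, int_eq h0 h1, int_eq h0 h1]
  have h : ∀ i, ∫ w, |G (Function.update w i false) - G (Function.update w i true)|
      ∂(bits ι p) = Inf p G i := fun i => int_eq h0 h1 _
  simp only [h]
  exact main h0 h1 T F G hF hD

end

end Pool.Agent.N521.EU
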