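import Pool.Agent.N964.GX.Stm

set_option autoImplicit false

/-!
# GX/F: the smoothed Perron formula for a general Dirichlet series

Adapted from `Pool/Agent/H295R2/P.lean` and `Pool/Agent/N964/MX/I1.lean`.
-/

open MeasureTheory Filter Topology Set

namespace Pool.Agent.N521.GXF

open Pool.Agent.H295R2
open Pool.Agent.N964.MX (wt wt_nonneg wt_cont wt_le)

noncomputable section

/-- The integrand in the Perron formula. -/
def PG (η x : ℝ) (k : ℝ → ℂ) (G : ℂ → ℂ) (s : ℂ) : ℂ :=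
  Lap k s * phi η s ^ 2 * Complex.exp (s * x) * G s

lemma PG_bound {G : ℂ → ℂ} {η x σ : ℝ} {k : ℝ → ℂ} {C u₀ Cf : ℝ} (h : Nice k C 0 u₀) (hη : 0 < η) (hη1 : η ≤ 1)
    (hσ : 0 < σ)
    (hf : ∀ s : ℂ, σ ≤ s.re → s.re ≤ 2 → ‖G s‖ ≤ Cf * (1 + |s.im|) ^ (1 / 2 : ℝ)) :
    ∃ B : ℝ, ∀ s : ℂ, σ ≤ s.re → s.re ≤ 2 → ‖PG η x k G s‖ ≤ B * (1 + |s.im|) ^ (-(3 / 2 : ℝ)) := by
  have hC := h.C_nonneg
  refine ⟨(C * Real.exp (2 * |u₀|) / σ) * (1000 / η ^ 2) * Real.exp (2 * |x|) * Cf, fun s hs1 hs2 => ?_⟩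
  have hre : 0 < s.re := by linarith
  have hCf : 0 ≤ Cf := by
    have h1 := (norm_nonneg _).trans (hf s hs1 hs2)
    have h2 : 0 < (1 + |s.im|) ^ (1 / 2 : ℝ) := by positivity
    exact nonneg_of_mul_nonneg_left h1 h2
  have h1 : ‖Lap k s‖ ≤ C * Real.exp (2 * |u₀|) / σ := by
    have h2 := h.norm_Lap_le hre
    refine h2.trans ?_
    have h3 : (0 - s.re) * u₀ ≤ 2 * |u₀| := by
      have h5 := neg_abs_le u₀
      have h6 := abs_nonneg u₀
      nlinarith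
    have h4 : σ ≤ s.re - 0 := by linarith
    gcongr
  have h2 := norm_phi_sq_le hη hη1 hre hs2
  have h3 : ‖Complex.exp (s * x)‖ ≤ Real.exp (2 * |x|) := by
    rw [Complex.norm_exp]
    apply Real.exp_le_exp.mpr
    simp only [Complex.mul_re, Complex.ofReal_re, Complex.ofReal_im, mul_zero, sub_zero]
    have h5 := le_abs_self x
    have h6 := abs_nonneg x
    nlinarith
  have h4 := hf s hs1 hs2
  unfold PG
  rw [norm_mul, norm_mul, norm_mul, norm_pow]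
  have e1 : (1 + |s.im|) ^ (-2 : ℝ) * (1 + |s.im|) ^ (1 / 2 : ℝ) = (1 + |s.im|) ^ (-(3 / 2 : ℝ)) := by
    rw [← Real.rpow_add (by positivity)]
    norm_num
  calc ‖Lap k s‖ * ‖phi η s‖ ^ 2 * ‖Complex.exp (s * x)‖ * ‖G s‖
      ≤ (C * Real.exp (2 * |u₀|) / σ) * ((1000 / η ^ 2) * (1 + |s.im|) ^ (-2 : ℝ)) *
          Real.exp (2 * |x|) * (Cf * (1 + |s.im|) ^ (1 / 2 : ℝ)) := by gcongr
    _ = (C * Real.exp (2 * |u₀|) / σ) * (1000 / η ^ 2) * Real.exp (2 * |x|) * Cf *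
          ((1 + |s.im|) ^ (-2 : ℝ) * (1 + |s.im|) ^ (1 / 2 : ℝ)) := by ring
    _ = _ := by rw [e1]

/-- **Perron formula** for the doubly averaged kernel. -/
theorem perron {b : ℕ → ℂ} {G : ℂ → ℂ} {Bb : ℝ} (hb0 : b 0 = 0)
    (hbb : ∀ n : ℕ, 1 ≤ n → ‖b n‖ ≤ Bb * (n : ℝ) ^ (1 / 4 : ℝ))
    (hG : DifferentiableOn ℂ G {s : ℂ | 1 / 2 < s.re})
    (hGL : ∀ s : ℂ, 3 / 2 < s.re → G s = LSeries b s)
    {σ η x : ℝ} {k : ℝ → ℂ} {C u₀ Cf : ℝ} (hσ : 1 / 2 < σ) (hσ2 : σ ≤ 2)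
    (hCf : ∀ s : ℂ, σ ≤ s.re → ‖G s‖ ≤ Cf * (1 + |s.im|) ^ (1 / 2 : ℝ))
    (h : Nice k C 0 u₀) (hη : 0 < η) (hη1 : η ≤ 1) :
    HasSum (fun m : ℕ => b m * avg η (avg η k) (x - Real.log m))
      (∫ ξ : ℝ, PG η x k G (σ + 2 * Real.pi * ξ * Complex.I)) := by
  have hσ0 : 0 < σ := by linarith
  have hBb : 0 ≤ Bb := by
    have h1 := (norm_nonneg _).trans (hbb 1 le_rfl)
    simpa using h1
  have hopen : IsOpen {s : ℂ | 1 / 2 < s.re} := isOpen_lt continuous_const Complex.continuous_re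
  obtain ⟨B, hB⟩ := PG_bound (G := G) (x := x) h hη hη1 hσ0 (fun s hs _ => hCf s hs)
  have hd : ∀ s : ℂ, σ ≤ s.re → s.re ≤ 2 → DifferentiableAt ℂ (PG η x k G) s := by
    intro s hs1 hs2
    have hs0 : s ≠ 0 := by rintro rfl; simp at hs1; linarith
    unfold PG
    have e1 : DifferentiableAt ℂ (Lap k) s := h.Lap_differentiableAt (by linarith)
    have e2 := phi_differentiableAt hη hs0
    have e3 : DifferentiableAt ℂ G s := hG.differentiableAt (hopen.mem_nhds (by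
      simp only [mem_ofPred_eq]; linarith))
    fun_prop
  -- shift the line
  have hshift := contour_shift hσ2 hd hB
  have hline : ∫ ξ : ℝ, PG η x k G (σ + 2 * Real.pi * ξ * Complex.I) =
      ∫ ξ : ℝ, PG η x k G ((2:ℝ) + 2 * Real.pi * ξ * Complex.I) := by
    rw [scale_integral, scale_integral, hshift]
  rw [hline]
  -- the formula on Re s = 2
  set k1 := avg η k with hk1
  set k2 := avg η k1 with hk2
  have hn1 : Nice k1 C 0 (u₀ - η) := h.avg hη
  have hn2 : Nice k2 C 0 (u₀ - η - η) := hn1.avg hη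
  have hLap2 : ∀ s : ℂ, 0 < s.re → Lap k2 s = Lap k s * phi η s ^ 2 := by
    intro s hs
    rw [hk2, hn1.Lap_avg hη hs, hk1, h.Lap_avg hη hs]
    ring
  have hre2 : ∀ ξ : ℝ, (((2:ℝ) : ℂ) + 2 * Real.pi * ξ * Complex.I).re = 2 := by
    intro ξ; simp
  have hre2' : ∀ y : ℝ, (((2:ℝ) : ℂ) + y * Complex.I).re = 2 := by
    intro ξ; simp
  have hLint : Integrable (fun ξ : ℝ => Lap k2 ((2:ℝ) + 2 * Real.pi * ξ * Complex.I)) := by
    refine scale_integrable (H := Lap k2) ?_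
    refine vertical_integrable (B := C * Real.exp (2 * |u₀|) / 2 * (1000 / η ^ 2)) ?_ ?_
    · intro s hs
      exact (hn2.Lap_differentiableAt (by rw [hs]; norm_num)).continuousAt
    · intro s hs
      have hs0 : 0 < s.re := by rw [hs]; norm_num
      rw [hLap2 s hs0, norm_mul, norm_pow]
      have h1 : ‖Lap k s‖ ≤ C * Real.exp (2 * |u₀|) / 2 := by
        have h2 := h.norm_Lap_le hs0
        rw [hs] at h2
        refine h2.trans ?_
        have h3 : (0 - 2) * u₀ ≤ 2 * |u₀| := by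
          have h5 := neg_abs_le u₀
          linarith
        have hC := h.C_nonneg
        rw [sub_zero]
        gcongr
      have h2 := norm_phi_sq_le hη hη1 hs0 hs.le
      have h3 : (1 + |s.im|) ^ (-2 : ℝ) ≤ (1 + |s.im|) ^ (-(3 / 2 : ℝ)) :=
        Real.rpow_le_rpow_of_exponent_le (by linarith [abs_nonneg s.im]) (by norm_num)
      have hC := h.C_nonneg
      calc ‖Lap k s‖ * ‖phi η s‖ ^ 2 ≤ (C * Real.exp (2 * |u₀|) / 2) *
            ((1000 / η ^ 2) * (1 + |s.im|) ^ (-2 : ℝ)) := by gcongr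
        _ ≤ (C * Real.exp (2 * |u₀|) / 2) * ((1000 / η ^ 2) * (1 + |s.im|) ^ (-(3 / 2 : ℝ))) := by gcongr
        _ = _ := by ring
  set F : ℕ → ℝ → ℂ := fun m ξ => Lap k2 ((2:ℝ) + 2 * Real.pi * ξ * Complex.I) *
      Complex.exp (((2:ℝ) + 2 * Real.pi * ξ * Complex.I) * x) *
      LSeries.term b ((2:ℝ) + 2 * Real.pi * ξ * Complex.I) m with hF
  have hFeq : ∀ m : ℕ, ∀ ξ : ℝ, F m ξ = b m *
      (Lap k2 ((2:ℝ) + 2 * Real.pi * ξ * Complex.I) *
      Complex.exp (((2:ℝ) + 2 * Real.pi * ξ * Complex.I) * ((x - Real.log m : ℝ) : ℂ))) := by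
    intro m ξ
    rcases Nat.eq_zero_or_pos m with rfl | hm
    · simp [hF, LSeries.term, hb0]
    · have hm0 : (m : ℂ) ≠ 0 := by exact_mod_cast hm.ne'
      rw [hF]
      simp only
      rw [LSeries.term_of_ne_zero hm.ne']
      have e1 : Complex.exp (((2:ℝ) + 2 * Real.pi * ξ * Complex.I) * ((x - Real.log m : ℝ) : ℂ)) =
          Complex.exp (((2:ℝ) + 2 * Real.pi * ξ * Complex.I) * x) /
            (m : ℂ) ^ (((2:ℝ) : ℂ) + 2 * Real.pi * ξ * Complex.I) := by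
        rw [Complex.cpow_def_of_ne_zero hm0, ← Complex.exp_sub]
        congr 1
        rw [Complex.ofReal_sub, Complex.natCast_log]
        ring
      rw [e1]
      ring
  have hFnorm : ∀ m : ℕ, ∀ ξ : ℝ, ‖F m ξ‖ ≤ (Real.exp (2 * x) * (Bb * (1 / (m:ℝ) ^ (7 / 4 : ℝ)))) *
      ‖Lap k2 ((2:ℝ) + 2 * Real.pi * ξ * Complex.I)‖ := by
    intro m ξ
    rw [hF]
    simp only
    rw [norm_mul, norm_mul]
    have e1 : ‖Complex.exp (((2:ℝ) + 2 * Real.pi * ξ * Complex.I) * x)‖ = Real.exp (2 * x) := by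
      rw [Complex.norm_exp]; congr 1; simp
    have e2 : ‖LSeries.term b
        (((2:ℝ) : ℂ) + 2 * Real.pi * ξ * Complex.I) m‖ ≤ Bb * (1 / (m:ℝ) ^ (7 / 4 : ℝ)) := by
      rw [LSeries.norm_term_eq, hre2]
      split_ifs with hm
      · positivity
      · have hm0 : (0:ℝ) < m := by exact_mod_cast Nat.pos_of_ne_zero hm
        have h1 := hbb m (Nat.pos_of_ne_zero hm)
        have h2 : (m:ℝ) ^ (1 / 4 : ℝ) / (m:ℝ) ^ (2:ℝ) = 1 / (m:ℝ) ^ (7 / 4 : ℝ) := by
          rw [← Real.rpow_sub hm0, one_div ((m:ℝ) ^ (7 / 4 : ℝ)), ← Real.rpow_neg hm0.le]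
          norm_num
        calc ‖b m‖ / (m:ℝ) ^ (2:ℝ) ≤ Bb * (m:ℝ) ^ (1 / 4 : ℝ) / (m:ℝ) ^ (2:ℝ) := by gcongr
          _ = Bb * ((m:ℝ) ^ (1 / 4 : ℝ) / (m:ℝ) ^ (2:ℝ)) := by ring
          _ = _ := by rw [h2]
    rw [e1]
    have h3 : 0 ≤ ‖Lap k2 ((2:ℝ) + 2 * Real.pi * ξ * Complex.I)‖ := norm_nonneg _
    have h4 : 0 < Real.exp (2 * x) := Real.exp_pos _
    calc _ ≤ ‖Lap k2 ((2:ℝ) + 2 * Real.pi * ξ * Complex.I)‖ * Real.exp (2 * x) * (Bb * (1 / (m:ℝ) ^ (7 / 4 : ℝ))) := by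
          gcongr
      _ = _ := by ring
  have hFint : ∀ m : ℕ, Integrable (F m) := by
    intro m
    refine (hLint.norm.const_mul (Real.exp (2 * x) * (Bb * (1 / (m:ℝ) ^ (7 / 4 : ℝ))))).mono' ?_
      (Eventually.of_forall fun ξ => hFnorm m ξ)
    have : F m = fun ξ : ℝ => b m *
      (Lap k2 ((2:ℝ) + 2 * Real.pi * ξ * Complex.I) *
      Complex.exp (((2:ℝ) + 2 * Real.pi * ξ * Complex.I) * ((x - Real.log m : ℝ) : ℂ))) := by
      ext ξ; exact hFeq m ξ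
    rw [this]
    refine AEStronglyMeasurable.const_mul ?_ _
    refine hLint.aestronglyMeasurable.mul (Continuous.aestronglyMeasurable ?_)
    fun_prop
  have hFsum : Summable (fun m : ℕ => ∫ ξ, ‖F m ξ‖) := by
    refine Summable.of_nonneg_of_le (fun m => integral_nonneg fun ξ => norm_nonneg _)
      (f := fun m : ℕ => (Real.exp (2 * x) * ∫ ξ : ℝ, ‖Lap k2 ((2:ℝ) + 2 * Real.pi * ξ * Complex.I)‖) *
        (Bb * (1 / (m:ℝ) ^ (7 / 4 : ℝ)))) ?_ ?_
    · intro m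
      calc ∫ ξ, ‖F m ξ‖ ≤ ∫ ξ : ℝ, (Real.exp (2 * x) * (Bb * (1 / (m:ℝ) ^ (7 / 4 : ℝ)))) *
            ‖Lap k2 ((2:ℝ) + 2 * Real.pi * ξ * Complex.I)‖ :=
            integral_mono (hFint m).norm (hLint.norm.const_mul _) (hFnorm m)
        _ = _ := by rw [integral_const_mul]; ring
    · exact ((Real.summable_one_div_nat_rpow.mpr (by norm_num)).mul_left _).mul_left _
  have key := hasSum_integral_of_summable_integral_norm hFint hFsum
  have e1 : ∀ m : ℕ, ∫ ξ, F m ξ = b m * k2 (x - Real.log m) := by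
    intro m
    simp_rw [hFeq]
    rw [integral_const_mul]
    congr 1
    exact (inversion hn2 (by norm_num : (0:ℝ) < 2) (hn1.avg_continuous η) hLint (x - Real.log m)).symm
  have e2 : ∫ ξ, ∑' m, F m ξ = ∫ ξ : ℝ, PG η x k G ((2:ℝ) + 2 * Real.pi * ξ * Complex.I) := by
    refine integral_congr_ae (Eventually.of_forall fun ξ => ?_)
    simp only [hF]
    rw [tsum_mul_left]
    have h1 := hGL (((2:ℝ) : ℂ) + 2 * Real.pi * ξ * Complex.I) (by rw [hre2]; norm_num)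
    unfold LSeries at h1
    rw [← h1]
    unfold PG
    rw [hLap2 _ (by rw [hre2]; norm_num)]
  simp_rw [e1] at key
  rw [e2] at key
  exact key

/-- the smoothed Perron formula for sharp sums -/
lemma sum_perron {b : ℕ → ℂ} {G : ℂ → ℂ} {Bb : ℝ} (hb0 : b 0 = 0)
    (hbb : ∀ n : ℕ, 1 ≤ n → ‖b n‖ ≤ Bb * (n : ℝ) ^ (1 / 4 : ℝ))
    (hG : DifferentiableOn ℂ G {s : ℂ | 1 / 2 < s.re})
    (hGL : ∀ s : ℂ, 3 / 2 < s.re → G s = LSeries b s)
    {σ y Cf : ℝ} (hσ : 1 / 2 < σ) (hσ2 : σ ≤ 2)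
    (hCf : ∀ s : ℂ, σ ≤ s.re → ‖G s‖ ≤ Cf * (1 + |s.im|) ^ (1 / 2 : ℝ)) (hy : 1 ≤ y) :
    ‖∑ n ∈ Finset.Icc 1 ⌊y⌋₊, b n‖ ≤ 60 * Bb * Real.sqrt y +
      ‖∫ ξ : ℝ, PG (1 / y) (Real.log y) step G (σ + 2 * Real.pi * ξ * Complex.I)‖ := by
  have hy0 : 0 < y := by linarith
  have hBb : 0 ≤ Bb := by
    have h1 := (norm_nonneg _).trans (hbb 1 le_rfl)
    simpa using h1
  set x : ℝ := Real.log y with hx
  set η : ℝ := 1 / y with hη
  have hη0 : 0 < η := by rw [hη]; positivity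
  have hη1 : η ≤ 1 := by rw [hη, div_le_one hy0]; exact hy
  have hexpx : Real.exp x = y := by rw [hx, Real.exp_log hy0]
  have key := perron hb0 hbb hG hGL (x := x) hσ hσ2 hCf step_nice hη0 hη1
  set k2 := avg η (avg η step) with hk2
  have hn : Nice k2 1 0 (0 - η - η) := (step_nice.avg hη0).avg hη0
  set N : ℕ := ⌊y * Real.exp (2 * η)⌋₊ with hN
  have hzero : ∀ m ∉ Finset.Icc 1 N, b m * k2 (x - Real.log m) = 0 := by
    intro m hm
    rcases Nat.eq_zero_or_pos m with rfl | hm0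
    · rw [hb0, zero_mul]
    · have hm1 : N < m := by
        by_contra hcon
        exact hm (Finset.mem_Icc.mpr ⟨hm0, by omega⟩)
      have hm2 : y * Real.exp (2 * η) < m := (Nat.floor_lt (by positivity)).mp hm1
      rw [hn.zero, mul_zero]
      have h3 := Real.log_lt_log (by positivity) hm2
      rw [Real.log_mul hy0.ne' (Real.exp_pos _).ne', Real.log_exp] at h3
      linarith
  have hsum := (hasSum_sum_of_ne_finset_zero hzero).unique key
  have hfloor : ⌊y⌋₊ ≤ N := by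
    rw [hN]
    refine Nat.floor_le_floor ?_
    have : 1 ≤ Real.exp (2 * η) := Real.one_le_exp (by positivity)
    nlinarith
  have hsplit : ∑ m ∈ Finset.Icc 1 N, b m * k2 (x - Real.log m) =
      (∑ n ∈ Finset.Icc 1 ⌊y⌋₊, b n) + ∑ m ∈ Finset.Ioc ⌊y⌋₊ N, b m * k2 (x - Real.log m) := by
    have e0 : Finset.Icc 1 N = Finset.Icc 1 ⌊y⌋₊ ∪ Finset.Ioc ⌊y⌋₊ N := by
      ext m
      simp only [Finset.mem_Icc, Finset.mem_union, Finset.mem_Ioc]
      omega
    rw [e0, Finset.sum_union]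
    · congr 1
      refine Finset.sum_congr rfl fun m hm => ?_
      rw [Finset.mem_Icc] at hm
      have hm1 : (m:ℝ) ≤ y := (Nat.le_floor_iff hy0.le).mp hm.2
      have hm0 : (0:ℝ) < m := by exact_mod_cast hm.1
      have : 0 ≤ x - Real.log m := by
        have := Real.log_le_log hm0 hm1
        linarith
      rw [hk2, avg2_step_of_nonneg hη0 this, mul_one]
    · rw [Finset.disjoint_left]
      intro m hm1 hm2
      rw [Finset.mem_Icc] at hm1
      rw [Finset.mem_Ioc] at hm2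
      omega
  have h3N : (N:ℝ) ≤ y * Real.exp (2 * η) := Nat.floor_le (by positivity)
  have h8N : y * Real.exp (2 * η) ≤ y + 18 := by
    have h5 : Real.exp (2 * η) ≤ 1 + 2 * η * Real.exp (2 * η) := by
      have h6 := Real.add_one_le_exp (-(2 * η))
      have h7 : Real.exp (-(2 * η)) * Real.exp (2 * η) = 1 := by rw [← Real.exp_add]; simp
      nlinarith [Real.exp_pos (2 * η)]
    have h6 : Real.exp (2 * η) ≤ 9 := by
      calc Real.exp (2 * η) ≤ Real.exp 2 := Real.exp_le_exp.mpr (by linarith)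
        _ = Real.exp 1 * Real.exp 1 := by rw [← Real.exp_add]; norm_num
        _ ≤ 9 := by nlinarith [Real.exp_one_lt_d9, Real.exp_pos 1]
    have h7 : y * η = 1 := by rw [hη]; field_simp
    calc y * Real.exp (2 * η) ≤ y * (1 + 2 * η * 9) := by
          gcongr
          calc Real.exp (2 * η) ≤ 1 + 2 * η * Real.exp (2 * η) := h5
            _ ≤ 1 + 2 * η * 9 := by gcongr
      _ = y + 18 * (y * η) := by ring
      _ = y + 18 := by rw [h7]; ring
  have hrest : ‖∑ m ∈ Finset.Ioc ⌊y⌋₊ N, b m * k2 (x - Real.log m)‖ ≤ 60 * Bb * Real.sqrt y := by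
    have hs1 : 1 ≤ Real.sqrt y := Real.one_le_sqrt.2 hy
    have hss : Real.sqrt y * Real.sqrt y = y := Real.mul_self_sqrt hy0.le
    have hb : ∀ m ∈ Finset.Ioc ⌊y⌋₊ N, ‖b m * k2 (x - Real.log m)‖ ≤ 3 * Bb * Real.sqrt y := by
      intro m hm
      rw [Finset.mem_Ioc] at hm
      have hm1 : 1 ≤ m := by omega
      rw [norm_mul]
      have h3 := hbb m hm1
      have h4 : ‖k2 (x - Real.log m)‖ ≤ 1 := by simpa using hn.bound (x - Real.log m)
      have h5 : (m : ℝ) ≤ 19 * y := by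
        have h6 : (m : ℝ) ≤ N := by exact_mod_cast hm.2
        linarith
      have h6 : (m : ℝ) ^ (1 / 4 : ℝ) ≤ 3 * Real.sqrt y := by
        have h7 : 3 * Real.sqrt y = ((3 * Real.sqrt y) ^ 4) ^ (1 / 4 : ℝ) := by
          rw [← Real.rpow_natCast, ← Real.rpow_mul (by positivity)]
          norm_num
        rw [h7]
        apply Real.rpow_le_rpow (by positivity) _ (by norm_num)
        have h8 : (3 * Real.sqrt y) ^ 4 = 81 * y * y := by
          have : (3 * Real.sqrt y) ^ 4 = 81 * (Real.sqrt y * Real.sqrt y) *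
            (Real.sqrt y * Real.sqrt y) := by ring
          rw [this, hss]
        rw [h8]
        nlinarith
      have h7 : 0 ≤ (m : ℝ) ^ (1 / 4 : ℝ) := by positivity
      calc ‖b m‖ * ‖k2 (x - Real.log m)‖ ≤ ‖b m‖ * 1 :=
            mul_le_mul_of_nonneg_left h4 (norm_nonneg _)
        _ = ‖b m‖ := mul_one _
        _ ≤ Bb * (m : ℝ) ^ (1 / 4 : ℝ) := h3
        _ ≤ Bb * (3 * Real.sqrt y) := mul_le_mul_of_nonneg_left h6 hBb
        _ = _ := by ring
    refine (norm_sum_le_of_le _ hb).trans ?_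
    rw [Finset.sum_const, Nat.card_Ioc, nsmul_eq_mul, Nat.cast_sub hfloor]
    have h4 : y - 1 < ⌊y⌋₊ := Nat.sub_one_lt_floor y
    have h5 : (N : ℝ) - (⌊y⌋₊ : ℝ) ≤ 20 := by linarith
    have h6 : 0 ≤ 3 * Bb * Real.sqrt y := by positivity
    nlinarith
  have hfin : (∑ n ∈ Finset.Icc 1 ⌊y⌋₊, b n) =
      (∫ ξ : ℝ, PG η x step G (σ + 2 * Real.pi * ξ * Complex.I)) -
      ∑ m ∈ Finset.Ioc ⌊y⌋₊ N, b m * k2 (x - Real.log m) := by
    rw [← hsum, hsplit]; ring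
  rw [hfin]
  refine (norm_sub_le _ _).trans ?_
  linarith

/-- the integrand is bounded by the weight -/
lemma PG_le (G : ℂ → ℂ) {σ y : ℝ} (hσ : 1 / 4 ≤ σ) (hσ2 : σ ≤ 2) (hy : 1 ≤ y) (t : ℝ) :
    ‖PG (1 / y) (Real.log y) step G (σ + t * Complex.I)‖ ≤
      2750 * y ^ σ * (‖G (σ + t * Complex.I)‖ * wt y t) := by
  have hy0 : 0 < y := by linarith
  have hη0 : 0 < 1 / y := by positivity
  have hη1 : 1 / y ≤ 1 := by rw [div_le_one hy0]; exact hy
  set s : ℂ := σ + t * Complex.I with hs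
  have hsre : s.re = σ := by simp [hs]
  have hsim : s.im = t := by simp [hs]
  set T : ℝ := 1 + |t| with hT
  have hT0 : 0 < T := by rw [hT]; positivity
  unfold PG wt
  rw [norm_mul, norm_mul, norm_mul, norm_pow, Lap_step (by rw [hsre]; linarith), ← hT]
  have a1 : ‖1 / s‖ ≤ 5 / T := by
    rw [norm_div, norm_one]
    have hs0 : 1 / 4 ≤ ‖s‖ := by
      have := Complex.abs_re_le_norm s
      rw [hsre] at this
      exact hσ.trans ((le_abs_self _).trans this)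
    have hs1 : |t| ≤ ‖s‖ := by rw [← hsim]; exact Complex.abs_im_le_norm s
    rw [div_le_div_iff₀ (by linarith) hT0]
    rw [hT]; linarith
  have a2 : ‖phi (1 / y) s‖ ^ 2 ≤ 550 * min 1 (y / T) := by
    have h0 := norm_phi_pow (a := 0) hη0 hη1 (s := s) (by rw [hsre]; exact hσ) (by rw [hsre]; exact hσ2) le_rfl zero_le_one
    have h1 := norm_phi_pow (a := 1) hη0 hη1 (s := s) (by rw [hsre]; exact hσ) (by rw [hsre]; exact hσ2) zero_le_one le_rfl
    rw [neg_zero, Real.rpow_zero, mul_one] at h0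
    rw [hsim, ← hT, Real.rpow_neg (by positivity), Real.rpow_one] at h1
    have e : (1 / y * T)⁻¹ = y / T := by
      rw [mul_inv, one_div, inv_inv, div_eq_mul_inv]
    rw [e] at h1
    rcases min_choice 1 (y / T) with h | h
    · rw [h, mul_one]; exact h0
    · rw [h]; exact h1
  have a3 : ‖Complex.exp (s * ((Real.log y : ℝ) : ℂ))‖ = y ^ σ := by
    rw [Complex.norm_exp]
    simp only [Complex.mul_re, Complex.ofReal_re, Complex.ofReal_im, mul_zero, sub_zero, hsre]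
    rw [Real.rpow_def_of_pos hy0, mul_comm]
  rw [a3]
  have hm : 0 ≤ min 1 (y / T) := le_min zero_le_one (by positivity)
  have hyσ : 0 ≤ y ^ σ := Real.rpow_nonneg hy0.le _
  calc ‖1 / s‖ * ‖phi (1 / y) s‖ ^ 2 * y ^ σ * ‖G s‖ ≤
        (5 / T) * (550 * min 1 (y / T)) * y ^ σ * ‖G s‖ := by gcongr
    _ = 2750 * y ^ σ * (‖G s‖ * (min 1 (y / T) / T)) := by ring

lemma int_Gw {G : ℂ → ℂ} (hG : DifferentiableOn ℂ G {s : ℂ | 1 / 2 < s.re}) {δ y Cf : ℝ}
    (hδ : 0 < δ) (hCf : ∀ s : ℂ, 1 / 2 + δ ≤ s.re → ‖G s‖ ≤ Cf * (1 + |s.im|) ^ (1 / 2 : ℝ))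
    (hy : 1 ≤ y) :
    Integrable (fun t : ℝ => ‖G (1 / 2 + δ + t * Complex.I)‖ * wt y t) := by
  have hre : ∀ t : ℝ, ((1 : ℂ) / 2 + δ + t * Complex.I).re = 1 / 2 + δ := by
    intro t; simp
  have hcont : Continuous (fun t : ℝ => G (1 / 2 + δ + t * Complex.I)) := by
    have h1 : ContinuousOn G {s : ℂ | 1 / 2 < s.re} := hG.continuousOn
    refine h1.comp_continuous (by fun_prop) fun t => ?_
    rw [mem_ofPred_eq, hre]
    linarith
  have hCf0 : 0 ≤ Cf := by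
    have h1 := (norm_nonneg _).trans (hCf (1 / 2 + δ + (0:ℝ) * Complex.I) (by rw [hre]))
    simpa using h1
  have hd := integrable_decay.const_mul (Cf * y)
  refine hd.mono' ?_ (Eventually.of_forall fun t => ?_)
  · exact (hcont.norm.mul (wt_cont y)).aestronglyMeasurable
  · have h1 := hCf (1 / 2 + δ + t * Complex.I) (by rw [hre])
    have him : (1 / 2 + (δ : ℂ) + t * Complex.I).im = t := by simp
    rw [him] at h1
    have h2 := wt_le (by linarith : 0 ≤ y) t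
    rw [Real.norm_eq_abs, abs_of_nonneg (mul_nonneg (norm_nonneg _) (wt_nonneg (by linarith) t))]
    have hT : (0 : ℝ) < 1 + |t| := by positivity
    calc ‖G (1 / 2 + δ + t * Complex.I)‖ * wt y t ≤
          (Cf * (1 + |t|) ^ (1 / 2 : ℝ)) * (y * (1 + |t|) ^ (-2 : ℝ)) := by
          refine mul_le_mul h1 h2 (wt_nonneg (by linarith) t) (by positivity)
      _ = Cf * y * ((1 + |t|) ^ (1 / 2 : ℝ) * (1 + |t|) ^ (-2 : ℝ)) := by ring
      _ = _ := by
        rw [← Real.rpow_add hT]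
        norm_num

theorem per : Pool.Agent.N964.GX.S_per := by
  intro b₀ G B hB hb hG hGL hgr
  -- remove the coefficient at `0`
  set b : ℕ → ℂ := fun n => if n = 0 then 0 else b₀ n with hbdef
  have hb0 : b 0 = 0 := by simp [hbdef]
  have hbn : ∀ n : ℕ, n ≠ 0 → b n = b₀ n := fun n hn => by simp [hbdef, hn]
  have hbb : ∀ n : ℕ, 1 ≤ n → ‖b n‖ ≤ B * (n : ℝ) ^ (1 / 4 : ℝ) := fun n hn => by
    rw [hbn n (by omega)]; exact hb n hn
  have hGL' : ∀ s : ℂ, 3 / 2 < s.re → G s = LSeries b s := fun s hs => by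
    rw [hGL s hs]
    exact LSeries_congr (fun {n} hn => (hbn n hn).symm) s
  refine ⟨max 2750 (60 * B), lt_max_of_lt_left (by norm_num), fun δ y hδ hδ4 hy => ?_⟩
  obtain ⟨Cf, -, hCf⟩ := hgr δ hδ hδ4
  have hI := int_Gw hG hδ hCf hy
  refine ⟨hI, ?_⟩
  have hy0 : 0 < y := by linarith
  have h1 := sum_perron hb0 hbb hG hGL' (σ := 1 / 2 + δ) (by linarith) (by linarith) hCf hy
  have hs : ∑ n ∈ Finset.Icc 1 ⌊y⌋₊, b₀ n = ∑ n ∈ Finset.Icc 1 ⌊y⌋₊, b n := by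
    refine Finset.sum_congr rfl fun n hn => ?_
    rw [Finset.mem_Icc] at hn
    exact (hbn n (by omega)).symm
  rw [hs]
  have h2 := scale_integral (PG (1 / y) (Real.log y) step G) (1 / 2 + δ)
  rw [h2] at h1
  have e0 : (((2 * Real.pi)⁻¹ : ℝ) : ℂ) = (2 * Real.pi : ℂ)⁻¹ := by push_cast; ring
  rw [e0] at h1
  refine h1.trans ?_
  have h3 : ‖(2 * Real.pi : ℂ)⁻¹ * ∫ t : ℝ, PG (1 / y) (Real.log y) step G
      (((1 / 2 + δ : ℝ) : ℂ) + t * Complex.I)‖ ≤
      2750 * y ^ (1 / 2 + δ) * ∫ t : ℝ, ‖G (1 / 2 + δ + t * Complex.I)‖ * wt y t := by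
    rw [norm_mul]
    have h4 : ‖(2 * Real.pi : ℂ)⁻¹‖ ≤ 1 := by
      rw [norm_inv]
      refine inv_le_one_of_one_le₀ ?_
      have : ‖(2 * Real.pi : ℂ)‖ = 2 * Real.pi := by
        rw [norm_mul, Complex.norm_real, Real.norm_eq_abs, abs_of_pos Real.pi_pos]
        norm_num
      rw [this]
      linarith [Real.pi_gt_three]
    have hI' := hI.const_mul (2750 * y ^ (1 / 2 + δ))
    have h5 : ‖∫ t : ℝ, PG (1 / y) (Real.log y) step G
        (((1 / 2 + δ : ℝ) : ℂ) + t * Complex.I)‖ ≤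
        ∫ t : ℝ, 2750 * y ^ (1 / 2 + δ) * (‖G (1 / 2 + δ + t * Complex.I)‖ * wt y t) := by
      refine norm_integral_le_of_norm_le hI' (Eventually.of_forall fun t => ?_)
      have h6 := PG_le G (σ := 1 / 2 + δ) (by linarith) (by linarith) hy t
      have e : (((1 / 2 + δ : ℝ) : ℂ) + t * Complex.I) = 1 / 2 + δ + t * Complex.I := by
        push_cast; ring
      rw [e] at h6 ⊢
      exact h6
    rw [integral_const_mul] at h5
    calc _ ≤ 1 * ‖∫ t : ℝ, PG (1 / y) (Real.log y) step G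
          (((1 / 2 + δ : ℝ) : ℂ) + t * Complex.I)‖ := by gcongr
      _ ≤ _ := by rw [one_mul]; exact h5
  have h4 : 0 ≤ ∫ t : ℝ, ‖G (1 / 2 + δ + t * Complex.I)‖ * wt y t :=
    integral_nonneg fun t => mul_nonneg (norm_nonneg _) (wt_nonneg hy0.le t)
  have h5 : 60 * B * Real.sqrt y ≤ max 2750 (60 * B) * Real.sqrt y :=
    mul_le_mul_of_nonneg_right (le_max_right _ _) (Real.sqrt_nonneg _)
  have h6 : 2750 * y ^ (1 / 2 + δ) * ∫ t : ℝ, ‖G (1 / 2 + δ + t * Complex.I)‖ * wt y t ≤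
      max 2750 (60 * B) * y ^ (1 / 2 + δ) *
        ∫ t : ℝ, ‖G (1 / 2 + δ + t * Complex.I)‖ * wt y t := by
    gcongr
    exact le_max_left _ _
  linarith

end

end Pool.Agent.N521.GXF
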