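import Pool.Agent.N906.RS.Asy
import Pool.Agent.N521.QP.An
import Pool.Agent.N521.QP.Big
import Pool.Agent.N521.QP.Dic
import Pool.Agent.Results.MP_2ec8a3_nt.ExceptionExponent

/-!
# FINR (project QP, helper906): the abc triples ordered by their radical

`finr : S_UPU ℚ 3 1 → S_LO ℚ → S_FINR`.
-/

set_option autoImplicit false

namespace Pool.Agent.N521.QP

open Filter Topology Finset
open Pool.Agent.H691R3 (hr aff)
open Pool.Agent.N906.KG (Rad3 Rad3a)

/-- finiteness -/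
theorem rad3_fin (M X Z : ℝ) : (Rad3 M X Z).Finite := by
  refine fin_aux _ ⌊Z⌋₊ ?_
  rintro t ⟨h1, h2, h3, h4, h5, h6⟩
  exact ⟨h4, Nat.le_floor h5⟩

/-- the triples of one size -/
def Tm (M X Z m : ℝ) : Set (ℕ × ℕ × ℕ) :=
  {t | t ∈ Rad3 M X Z ∧ m - 1 < Real.log ((max t.1 t.2.1 : ℕ) : ℝ) ∧
    Real.log ((max t.1 t.2.1 : ℕ) : ℝ) ≤ m}

theorem Tm_card (h1 : Pool.Agent.N906.KG.S_UPU ℚ 3 1) {M ε : ℝ} (hM : 1 / 3 < M) (hM1 : M < 3 / 7)
    (hε : 0 < ε) : ∃ m₀ : ℝ, 1 < m₀ ∧ ∀ H m G Z : ℝ, m₀ ≤ m → m ≤ 13 / 28 * (H / M) →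
      G = max ((3 - 1 / M) * m) (3 * m - (3 - (3 - 1 / M)) * H) - 4 →
      ((Tm M (Real.exp (H / M)) Z m).ncard : ℝ) ≤
        Real.exp (2 * m - G + (1 + ε) * √(24 * G / Real.log m)) := by
  classical
  set κ := 3 - 1 / M with hκ
  have hM0 : 0 < M := by linarith
  have hinv : 1 / M < 3 := by rw [div_lt_iff₀ hM0]; linarith
  have hinv2 : 7 / 3 < 1 / M := by rw [lt_div_iff₀ hM0]; linarith
  have hκ0 : 0 < κ := by linarith
  have hκ1 : κ < 2 / 3 := by linarith
  have hδ : 0 < min (κ / 2) (1 / 10) := by positivity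
  obtain ⟨X₀, hX₀, hU⟩ := h1 al ∅ (min (κ / 2) (1 / 10)) ε Al_al Gd_al hδ hε
  refine ⟨max X₀ (8 / κ), lt_of_lt_of_le hX₀ (le_max_left _ _), fun H m G Z hm hmH hG => ?_⟩
  have hm1 : X₀ ≤ m := (le_max_left _ _).trans hm
  have hm2 : 8 / κ ≤ m := (le_max_right _ _).trans hm
  rw [div_le_iff₀ hκ0] at hm2
  have hm0 : 0 < m := by linarith
  have hHM : 3 - κ = 1 / M := by rw [hκ]; ring
  have hHM' : (3 - κ) * H = H / M := by rw [hHM]; ring
  rw [hHM'] at hG
  set T := Tm M (Real.exp (H / M)) Z m with hT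
  have hTfin : T.Finite := (rad3_fin M (Real.exp (H / M)) Z).subset fun t ht => ht.1
  set F : Finset ℚ := hTfin.toFinset.image (fun t => (t.1 : ℚ) / t.2.1) with hF
  have hcard : T.ncard = F.card := by
    rw [Set.ncard_eq_toFinset_card T hTfin, hF, Finset.card_image_of_injOn]
    intro t ht u hu he
    obtain ⟨⟨a1, a2, a3, a4, -⟩, -⟩ := hTfin.mem_toFinset.1 (Finset.mem_coe.1 ht)
    obtain ⟨⟨b1, b2, b3, b4, -⟩, -⟩ := hTfin.mem_toFinset.1 (Finset.mem_coe.1 hu)
    obtain ⟨e1, e2⟩ := point_inj a2 b2 a3 b3 he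
    exact Prod.ext e1 (Prod.ext e2 (by rw [← a4, ← b4, e1, e2]))
  rw [hcard]
  have hδm : min (κ / 2) (1 / 10) * m ≤ G := by
    have h2 : min (κ / 2) (1 / 10) * m ≤ κ / 2 * m :=
      mul_le_mul_of_nonneg_right (min_le_left _ _) hm0.le
    have h3 := le_max_left (κ * m) (3 * m - H / M)
    rw [hG]
    linarith
  have hGm : G ≤ (1 - min (κ / 2) (1 / 10)) * m := by
    have h2 : min (κ / 2) (1 / 10) * m ≤ 1 / 10 * m :=
      mul_le_mul_of_nonneg_right (min_le_right _ _) hm0.le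
    have h3 : max (κ * m) (3 * m - H / M) ≤ (9 / 10) * m := by
      apply max_le
      · nlinarith
      · linarith
    rw [hG]
    linarith
  have h2 := hU m G F hm1 hδm hGm ?_
  · have e : (8 : ℝ) * ((3 : ℕ) : ℝ) * G = 24 * G := by push_cast; ring
    rw [e] at h2
    exact h2
  · intro x hx
    obtain ⟨t, ht, rfl⟩ := Finset.mem_image.1 hx
    obtain ⟨⟨a1, a2, a3, a4, a5, a6, a7⟩, a8, a9⟩ := hTfin.mem_toFinset.1 ht
    obtain ⟨b1, b2, Q, b3, b4⟩ := point a1 a2 a3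
    refine ⟨b1, by rw [b2]; exact a8, by rw [b2]; exact a9, Q, b3, b4.trans ?_⟩
    rw [b2]
    set h := Real.log ((max t.1 t.2.1 : ℕ) : ℝ) with hh
    set R := rd (t.1 * t.2.1 * (t.1 + t.2.1)) with hR
    have hR0 : (0 : ℝ) < R := by exact_mod_cast rd_pos _
    have hRe : R = ∏ p ∈ (t.1 * t.2.1 * t.2.2).primeFactors, p := by
      rw [hR, a4]
      rfl
    rw [← hRe] at a6 a7
    have hmx : (0 : ℝ) < ((max t.1 t.2.1 : ℕ) : ℝ) := by
      exact_mod_cast lt_max_of_lt_left a1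
    have c1 : Real.log R ≤ H / M := (Real.log_le_iff_le_exp hR0).2 a6
    have c2 : (t.2.2 : ℝ) ≤ 2 * ((max t.1 t.2.1 : ℕ) : ℝ) := by
      have h3 := le_max_left t.1 t.2.1
      have h4 := le_max_right t.1 t.2.1
      have h5 : t.2.2 ≤ 2 * max t.1 t.2.1 := by omega
      exact_mod_cast h5
    have c3 : M * Real.log R ≤ Real.log 2 + h := by
      rw [← Real.log_rpow hR0, hh, ← Real.log_mul two_ne_zero hmx.ne']
      exact Real.log_le_log (by positivity) (a7.trans c2)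
    have c4 : Real.log R ≤ (Real.log 2 + h) * (1 / M) := by
      rw [mul_one_div, le_div_iff₀ hM0]
      linarith
    have c5 : Real.log 2 ≤ 0.6931471808 := Real.log_two_lt_d9.le
    have c6 : 0 < Real.log 2 := Real.log_pos (by norm_num)
    have c7 : Real.log 2 * (1 / M) ≤ 2.1 := by
      have := mul_le_mul_of_nonneg_left hinv.le c6.le
      linarith
    have c8 : h * (1 / M) = 3 * h - κ * h := by rw [← hHM]; ring
    have c9 : κ * (m - h) ≤ 1 := by nlinarith
    rw [hG]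
    have c10 : max (κ * m) (3 * m - H / M) ≤ 3 * h + 4 - Real.log R := by
      apply max_le
      · have : (Real.log 2 + h) * (1 / M) = Real.log 2 * (1 / M) + h * (1 / M) := by ring
        linarith
      · linarith
    push_cast
    linarith

theorem R0_card (H : ℝ) (Z : Set (ℕ × ℕ × ℕ)) (h : ∀ t ∈ Z, 0 < t.1 ∧ 0 < t.2.1 ∧
    t.1 + t.2.1 = t.2.2 ∧ Real.log ((max t.1 t.2.1 : ℕ) : ℝ) ≤ H / 2) :
    (Z.ncard : ℝ) ≤ Real.exp H := by
  classical
  set n := ⌊Real.exp (H / 2)⌋₊ with hn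
  have hsub : Z ⊆ (((Finset.Icc 1 n ×ˢ Finset.Icc 1 n).image
      (fun p : ℕ × ℕ => (p.1, p.2, p.1 + p.2)) : Finset (ℕ × ℕ × ℕ)) : Set (ℕ × ℕ × ℕ)) := by
    intro t ht
    obtain ⟨h1, h2, h3, h4⟩ := h t ht
    have hpos : (0 : ℝ) < ((max t.1 t.2.1 : ℕ) : ℝ) := by exact_mod_cast lt_max_of_lt_left h1
    have h5 : ((max t.1 t.2.1 : ℕ) : ℝ) ≤ Real.exp (H / 2) := (Real.log_le_iff_le_exp hpos).1 h4
    have h6 : max t.1 t.2.1 ≤ n := Nat.le_floor h5
    refine Finset.mem_coe.2 (Finset.mem_image.2 ⟨(t.1, t.2.1), Finset.mem_product.2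
      ⟨Finset.mem_Icc.2 ⟨h1, (le_max_left _ _).trans h6⟩,
        Finset.mem_Icc.2 ⟨h2, (le_max_right _ _).trans h6⟩⟩, ?_⟩)
    exact Prod.ext rfl (Prod.ext rfl h3)
  have h1 := Set.ncard_le_ncard hsub (Finset.finite_toSet _)
  rw [Set.ncard_coe_finset] at h1
  have h2 := h1.trans Finset.card_image_le
  rw [Finset.card_product, Nat.card_Icc, Nat.add_sub_cancel] at h2
  have h3 : (n : ℝ) ≤ Real.exp (H / 2) := Nat.floor_le (Real.exp_pos _).le
  calc (Z.ncard : ℝ) ≤ ((n * n : ℕ) : ℝ) := by exact_mod_cast h2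
    _ = (n : ℝ) * n := by push_cast; ring
    _ ≤ Real.exp (H / 2) * Real.exp (H / 2) := by gcongr
    _ = Real.exp H := by rw [← Real.exp_add]; congr 1; ring

/-- **The upper bound.** -/
theorem up1 (h1 : Pool.Agent.N906.KG.S_UPU ℚ 3 1) {M A ε : ℝ} (hM : 1 / 3 < M) (hM1 : M < 3 / 7)
    (hε : 0 < ε) (hε1 : ε ≤ 1) : ∀ᶠ H : ℝ in atTop,
      ((Rad3 M (Real.exp (H / M)) (Real.exp (H / M) ^ A)).ncard : ℝ) ≤
        Real.exp ((1 / M - 1) * H + (1 + ε) * √(24 * (3 - 1 / M) * H / Real.log H)) := by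
  classical
  have hM0 : 0 < M := by linarith
  have hinv : 1 / M < 3 := by rw [div_lt_iff₀ hM0]; linarith
  have hinv2 : 7 / 3 < 1 / M := by rw [lt_div_iff₀ hM0]; linarith
  obtain ⟨m₀, hm₀, hT⟩ := Tm_card h1 hM hM1 (ε := ε / 4) (by positivity)
  obtain ⟨C, hC0, hC⟩ := big A ((3 / 7 - M) / 2) (by linarith)
  have hκ0 : 0 < 3 - 1 / M := by linarith
  have hκ1 : 3 - 1 / M < 2 / 3 := by linarith
  set θ := max 1 ((4 / 7 + (3 / 7 - M) / 2) / M) with hθ
  have hθe : θ < 1 / M - 1 := by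
    rw [hθ]
    apply max_lt
    · linarith
    · have : 1 / M - 1 = (1 - M) / M := by field_simp
      rw [this, div_lt_div_iff_of_pos_right hM0]
      linarith
  filter_upwards [ev_main hκ0 hκ1 (ε := ε / 2) (by positivity) (by linarith),
    ev_fac (κ := 3 - 1 / M) (ε := ε) (C := 1 + C) hκ0 hε hθe,
    eventually_ge_atTop (2 * m₀), eventually_ge_atTop (56 : ℝ)] with H hmain hfac hH1 hH2
  apply hfac
  have hH0 : 0 < H := by linarith
  have hHM : H ≤ H / M := by
    rw [le_div_iff₀ hM0]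
    nlinarith
  have hHM3 : H / M ≤ 3 * H := by
    rw [div_le_iff₀ hM0]
    nlinarith
  set X := Real.exp (H / M) with hX
  have hX1 : 1 < X := Real.one_lt_exp_iff.2 (by positivity)
  set I : Finset ℕ := (Finset.range (⌊13 / 28 * (H / M)⌋₊ + 1)).filter (fun m => H / 2 < (m : ℝ))
    with hI
  have hIcard : (I.card : ℝ) ≤ 2 * H + 1 := by
    have h2 : I.card ≤ ⌊13 / 28 * (H / M)⌋₊ + 1 := by
      have := Finset.card_filter_le (Finset.range (⌊13 / 28 * (H / M)⌋₊ + 1))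
        (fun m => H / 2 < (m : ℝ))
      rwa [Finset.card_range] at this
    have h3 : ((⌊13 / 28 * (H / M)⌋₊ : ℕ) : ℝ) ≤ 13 / 28 * (H / M) :=
      Nat.floor_le (by positivity)
    have h4 : (I.card : ℝ) ≤ ((⌊13 / 28 * (H / M)⌋₊ + 1 : ℕ) : ℝ) := by exact_mod_cast h2
    push_cast at h4
    linarith
  set R0 : Set (ℕ × ℕ × ℕ) := {t | t ∈ Rad3 M X (X ^ A) ∧
    Real.log ((max t.1 t.2.1 : ℕ) : ℝ) ≤ H / 2} with hR0
  have hsub : Rad3 M X (X ^ A) ⊆ R0 ∪ ((⋃ m ∈ I, Tm M X (X ^ A) m) ∪ P (25 / 56) A X) := by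
    intro t ht
    rcases le_or_gt (Real.log ((max t.1 t.2.1 : ℕ) : ℝ)) (H / 2) with h2 | h2
    · exact Or.inl ⟨ht, h2⟩
    right
    set h := Real.log ((max t.1 t.2.1 : ℕ) : ℝ) with hh
    have hh0 : 0 < h := by linarith
    rcases le_or_gt ((⌈h⌉₊ : ℕ) : ℝ) (13 / 28 * (H / M)) with h3 | h3
    · left
      refine Set.mem_biUnion (x := ⌈h⌉₊) ?_ ?_
      · rw [hI]
        refine Finset.mem_coe.2 (Finset.mem_filter.2 ⟨Finset.mem_range.2 ?_, ?_⟩)
        · exact Nat.lt_succ_of_le (Nat.le_floor h3)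
        · exact h2.trans_le (Nat.le_ceil h)
      · refine ⟨ht, ?_, Nat.le_ceil h⟩
        have := Nat.ceil_lt_add_one hh0.le
        linarith
    · right
      obtain ⟨a1, a2, a3, a4, a5, a6, a7⟩ := ht
      have h4 := Nat.ceil_lt_add_one hh0.le
      have h5 : 25 / 56 * (H / M) ≤ h := by
        have h6 : (56 : ℝ) ≤ H / M := by linarith
        linarith
      have hc1 : Nat.Coprime t.1 t.2.2 := by
        rw [← a4]
        simpa using a3
      have hc2 : Nat.Coprime t.2.1 t.2.2 := by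
        rw [← a4]
        simpa using a3.symm
      have hmx : (0 : ℝ) < ((max t.1 t.2.1 : ℕ) : ℝ) := by
        exact_mod_cast lt_max_of_lt_left a1
      refine ⟨⟨a1, a2, by omega, a4, a3, hc1, hc2⟩, a5, ?_, a6⟩
      calc X ^ (25 / 56 : ℝ) = Real.exp (25 / 56 * (H / M)) := by
            rw [hX, ← Real.exp_mul]
            congr 1
            ring
        _ ≤ Real.exp h := Real.exp_le_exp.2 h5
        _ = ((max t.1 t.2.1 : ℕ) : ℝ) := by rw [hh, Real.exp_log hmx]
        _ ≤ (t.2.2 : ℝ) := by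
            have : max t.1 t.2.1 ≤ t.2.2 := max_le (by omega) (by omega)
            exact_mod_cast this
  have hR0fin : R0.Finite := (rad3_fin M X (X ^ A)).subset fun t ht => ht.1
  have hTfin : (⋃ m ∈ I, Tm M X (X ^ A) m).Finite :=
    (rad3_fin M X (X ^ A)).subset fun t ht => by
      obtain ⟨m, hm, hm2⟩ := Set.mem_iUnion₂.1 ht
      exact hm2.1
  have hR0card : (R0.ncard : ℝ) ≤ Real.exp H := by
    refine R0_card H R0 ?_
    rintro t ⟨⟨a1, a2, a3, a4, -⟩, a8⟩
    exact ⟨a1, a2, a4, a8⟩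
  have hTcard : ((⋃ m ∈ I, Tm M X (X ^ A) m).ncard : ℝ) ≤
      (2 * H + 1) * Real.exp ((1 / M - 1) * H + 4 +
        (1 + ε / 2) * √(24 * (3 - 1 / M) * H / Real.log H)) := by
    have h2 := I.set_ncard_biUnion_le (fun m : ℕ => Tm M X (X ^ A) (m : ℝ))
    have h3 : ((⋃ m ∈ I, Tm M X (X ^ A) m).ncard : ℝ) ≤
        ∑ m ∈ I, ((Tm M X (X ^ A) (m : ℝ)).ncard : ℝ) := by exact_mod_cast h2
    refine h3.trans ?_
    have h4 : ∀ m ∈ I, ((Tm M X (X ^ A) (m : ℝ)).ncard : ℝ) ≤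
        Real.exp ((1 / M - 1) * H + 4 +
          (1 + ε / 2) * √(24 * (3 - 1 / M) * H / Real.log H)) := by
      intro m hm
      rw [hI, Finset.mem_filter, Finset.mem_range] at hm
      have h5 : (m : ℝ) ≤ 13 / 28 * (H / M) := by
        have h6 : m ≤ ⌊13 / 28 * (H / M)⌋₊ := Nat.le_of_lt_succ hm.1
        have h7 : ((⌊13 / 28 * (H / M)⌋₊ : ℕ) : ℝ) ≤ 13 / 28 * (H / M) :=
          Nat.floor_le (by positivity)
        have h8 : (m : ℝ) ≤ ((⌊13 / 28 * (H / M)⌋₊ : ℕ) : ℝ) := by exact_mod_cast h6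
        linarith
      have h6 := hT H m _ (X ^ A) (by linarith [hm.2]) h5 rfl
      have h7 := hmain m _ hm.2.le rfl
      refine h6.trans (Real.exp_le_exp.2 ?_)
      have e1 : 1 + ε / 2 / 2 = 1 + ε / 4 := by ring
      have e2 : 2 - (3 - 1 / M) = 1 / M - 1 := by ring
      rw [e1, e2] at h7
      exact h7
    have h5 := Finset.sum_le_card_nsmul I _ _ h4
    rw [nsmul_eq_mul] at h5
    refine h5.trans ?_
    gcongr
  have hPcard : ((P (25 / 56) A X).ncard : ℝ) ≤ C * Real.exp (θ * H) := by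
    refine (hC X hX1).trans ?_
    have h2 : X ^ (4 / 7 + (3 / 7 - M) / 2 : ℝ) ≤ Real.exp (θ * H) := by
      rw [hX, ← Real.exp_mul]
      apply Real.exp_le_exp.2
      have h3 : (4 / 7 + (3 / 7 - M) / 2) / M ≤ θ := le_max_right _ _
      have h4 : H / M * (4 / 7 + (3 / 7 - M) / 2) = (4 / 7 + (3 / 7 - M) / 2) / M * H := by ring
      rw [h4]
      gcongr
    gcongr
  have hexp : Real.exp H ≤ Real.exp (θ * H) := by
    apply Real.exp_le_exp.2
    have h3 : (1 : ℝ) ≤ θ := le_max_left _ _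
    nlinarith
  have h2 : ((Rad3 M X (X ^ A)).ncard : ℝ) ≤
      (R0.ncard : ℝ) + (((⋃ m ∈ I, Tm M X (X ^ A) m).ncard : ℝ) + ((P (25 / 56) A X).ncard : ℝ)) := by
    have h3 := Set.ncard_le_ncard hsub (hR0fin.union (hTfin.union (P_fin _ _ _)))
    have h4 := Set.ncard_union_le R0 ((⋃ m ∈ I, Tm M X (X ^ A) m) ∪ P (25 / 56) A X)
    have h5 := Set.ncard_union_le (⋃ m ∈ I, Tm M X (X ^ A) m) (P (25 / 56) A X)
    exact_mod_cast h3.trans (h4.trans (Nat.add_le_add_left h5 _))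
  linarith

/-- **The lower bound.** -/
theorem low1 (h2 : Pool.Agent.N906.RS.S_LO ℚ) {M A ε : ℝ} (hM : 1 / 3 < M) (hM1 : M < 3 / 7)
    (hA : 1 ≤ A) (hε : 0 < ε) (hε1 : ε < 1) : ∀ᶠ H : ℝ in atTop,
      Real.exp ((1 / M - 1) * H + (1 - ε) * √(24 * (3 - 1 / M) * H / Real.log H)) ≤
        ((Rad3 M (Real.exp (H / M)) (Real.exp (H / M) ^ A)).ncard : ℝ) := by
  classical
  have hM0 : 0 < M := by linarith
  have hinv : 1 / M < 3 := by rw [div_lt_iff₀ hM0]; linarith
  have hinv2 : 7 / 3 < 1 / M := by rw [lt_div_iff₀ hM0]; linarith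
  set κ := 3 - 1 / M with hκ
  have hκ0 : 0 < κ := by linarith
  have hκ1 : κ < 1 := by linarith
  have hHM : 3 - κ = 1 / M := by rw [hκ]; ring
  have he : 2 - κ = 1 / M - 1 := by rw [hκ]; ring
  obtain ⟨X₀, hX₀, hL⟩ := h2 κ (ε / 2) hκ0 hκ1 (by positivity) (by linarith)
  filter_upwards [ev_low (κ := κ) (ε := ε / 2) hκ0 (by positivity) (Real.log 3),
    eventually_ge_atTop X₀, eventually_ge_atTop (1 : ℝ)] with H hlow hH1 hH2
  obtain ⟨F, hF, hFc⟩ := hL H hH1
  have hH0 : 0 < H := by linarith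
  have hHM2 : 7 / 3 * H ≤ H / M := by
    have h3 : H / M = 1 / M * H := by ring
    rw [h3]
    gcongr
  set X := Real.exp (H / M) with hX
  have hX1 : 1 ≤ X := Real.one_le_exp (by linarith)
  have hmem : ∀ x ∈ F, tri x ∈ Rad3 M X (X ^ A) := by
    intro x hx
    obtain ⟨b1, b2, Q, b3, b4⟩ := hF x hx
    obtain ⟨a1, a2, a3, a4, a5, a6, a7⟩ := tri_spec b1
    have hht : Pool.Agent.W223.AK.ht x = Real.log ((max x.num.natAbs x.den : ℕ) : ℝ) := hr_rat x
    have hmx : (0 : ℝ) < ((max x.num.natAbs x.den : ℕ) : ℝ) := by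
      exact_mod_cast lt_max_of_lt_right x.den_pos
    set R := rd (x.num.natAbs * x.den * (x.num + x.den).natAbs) with hR
    have hR0 : (0 : ℝ) < R := by exact_mod_cast rd_pos _
    have hRe : ∏ p ∈ ((tri x).1 * (tri x).2.1 * (tri x).2.2).primeFactors, p = R := by
      rw [a5]
      rfl
    have c1 : Real.log R ≤ 1 / M * Pool.Agent.W223.AK.ht x := by
      rw [← hHM]
      exact (rad_le b3).trans b4
    have c2 : ((tri x).2.2 : ℝ) ≤ 2 * ((max x.num.natAbs x.den : ℕ) : ℝ) := by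
      exact_mod_cast a7
    have c3 : ((max x.num.natAbs x.den : ℕ) : ℝ) ≤ Real.exp H := by
      rw [hht] at b2
      exact (Real.log_le_iff_le_exp hmx).1 b2
    refine ⟨a1, a2, a3, a4, ?_, ?_, ?_⟩
    · have c4 : (2 : ℝ) ≤ Real.exp 1 := by
        have := Real.exp_one_gt_d9
        linarith
      calc ((tri x).2.2 : ℝ) ≤ 2 * ((max x.num.natAbs x.den : ℕ) : ℝ) := c2
        _ ≤ Real.exp 1 * Real.exp H := by gcongr
        _ = Real.exp (1 + H) := by rw [Real.exp_add]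
        _ ≤ X := Real.exp_le_exp.2 (by linarith)
        _ = X ^ (1 : ℝ) := (Real.rpow_one X).symm
        _ ≤ X ^ A := Real.rpow_le_rpow_of_exponent_le hX1 hA
    · rw [hRe, hX]
      apply (Real.log_le_iff_le_exp hR0).1
      refine c1.trans ?_
      have h3 : H / M = 1 / M * H := by ring
      rw [h3]
      gcongr
    · rw [hRe]
      have c4 : (R : ℝ) ^ M ≤ ((max x.num.natAbs x.den : ℕ) : ℝ) := by
        rw [← Real.log_le_log_iff (by positivity) hmx, Real.log_rpow hR0, ← hht]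
        have h3 := mul_le_mul_of_nonneg_left c1 hM0.le
        have h4 : M * (1 / M * Pool.Agent.W223.AK.ht x) = Pool.Agent.W223.AK.ht x := by
          field_simp
        linarith
      refine c4.trans ?_
      exact_mod_cast a6
  have hfib : ∀ k : Fin 3, (F.filter (fun x => kl x = k)).card ≤ (Rad3 M X (X ^ A)).ncard := by
    intro k
    rw [← Set.ncard_coe_finset]
    refine Set.ncard_le_ncard_of_injOn tri (fun x hx => ?_) ?_ (rad3_fin _ _ _)
    · exact hmem x (Finset.mem_filter.1 (Finset.mem_coe.1 hx)).1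
    · intro x hx y hy hxy
      obtain ⟨hx1, hx2⟩ := Finset.mem_filter.1 (Finset.mem_coe.1 hx)
      obtain ⟨hy1, hy2⟩ := Finset.mem_filter.1 (Finset.mem_coe.1 hy)
      exact tri_inj (hF x hx1).1 (hF y hy1).1 (hx2.trans hy2.symm) hxy
  have hcard : F.card ≤ 3 * (Rad3 M X (X ^ A)).ncard := by
    have h3 := Finset.card_eq_sum_card_fiberwise (f := kl) (s := F) (t := Finset.univ)
      (fun x _ => Finset.mem_coe.2 (Finset.mem_univ _))
    rw [h3]
    calc ∑ k : Fin 3, (F.filter (fun x => kl x = k)).card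
        ≤ ∑ k : Fin 3, (Rad3 M X (X ^ A)).ncard := Finset.sum_le_sum fun k _ => hfib k
      _ = 3 * (Rad3 M X (X ^ A)).ncard := by simp
  have hcard' : (F.card : ℝ) ≤ 3 * ((Rad3 M X (X ^ A)).ncard : ℝ) := by exact_mod_cast hcard
  rw [he] at hFc
  set s := √(24 * κ * H / Real.log H) with hs
  have h5 : Real.exp ((1 / M - 1) * H + (1 - ε) * s) * 3 ≤
      Real.exp ((1 / M - 1) * H + (1 - ε / 2) * s) := by
    have h6 : Real.exp (Real.log 3) = 3 := Real.exp_log (by norm_num)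
    calc Real.exp ((1 / M - 1) * H + (1 - ε) * s) * 3
        = Real.exp ((1 / M - 1) * H + (1 - ε) * s + Real.log 3) := by
          rw [Real.exp_add _ (Real.log 3), h6]
      _ ≤ _ := Real.exp_le_exp.2 (by linarith)
  linarith

/-- the limit -/
theorem lim {M : ℝ} (hM0 : 0 < M) (hκ : 0 < 3 - 1 / M) (N : ℝ → ℝ)
    (hup : ∀ ε : ℝ, 0 < ε → ε ≤ 1 → ∀ᶠ H : ℝ in atTop, N (Real.exp (H / M)) ≤
      Real.exp ((1 / M - 1) * H + (1 + ε) * √(24 * (3 - 1 / M) * H / Real.log H)))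
    (hlo : ∀ ε : ℝ, 0 < ε → ε < 1 → ∀ᶠ H : ℝ in atTop,
      Real.exp ((1 / M - 1) * H + (1 - ε) * √(24 * (3 - 1 / M) * H / Real.log H)) ≤
        N (Real.exp (H / M))) :
    Tendsto (fun X : ℝ => (Real.log (N X) - (1 - M) * Real.log X) /
      √(Real.log X / Real.log (Real.log X))) atTop (𝓝 √(24 * (3 * M - 1))) := by
  have hev : ∀ {p : ℝ → Prop}, (∀ᶠ H : ℝ in atTop, p H) → ∃ X₀ : ℝ, 1 < X₀ ∧ ∀ X : ℝ, X₀ ≤ X → p X := by
    intro p hp
    obtain ⟨a, ha⟩ := eventually_atTop.1 hp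
    exact ⟨max a 2, lt_of_lt_of_le one_lt_two (le_max_right _ _),
      fun X hX => ha X ((le_max_left _ _).trans hX)⟩
  have h1 := Pool.Agent.N906.RS.squeeze (k := 3 - 1 / M) (d := M) (e := 1 / M - 1) hκ hM0
    (fun H => N (Real.exp (H / M))) 0 (fun ε hε => ?_) (fun ε hε hε1 => ?_)
  · have h2 := h1.comp Real.tendsto_log_atTop
    have e1 : 24 * (3 - 1 / M) * M = 24 * (3 * M - 1) := by field_simp
    rw [e1] at h2
    refine h2.congr' ?_
    filter_upwards [eventually_gt_atTop (0 : ℝ)] with X hX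
    have e2 : M * Real.log X / M = Real.log X := by field_simp
    have e3 : (1 / M - 1) * (M * Real.log X) = (1 - M) * Real.log X := by field_simp
    simp only [Function.comp_apply]
    rw [e2, e3, Real.exp_log hX]
  · apply hev
    have h2 := hup (min ε 1) (by positivity) (min_le_right _ _)
    filter_upwards [h2] with H hH
    refine hH.trans (Real.exp_le_exp.2 ?_)
    have h3 : min ε 1 ≤ ε := min_le_left _ _
    gcongr
  · apply hev
    have h2 := hlo ε hε hε1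
    filter_upwards [h2] with H hH
    rw [add_zero]
    exact hH

open Pool.Agent.Results.MP_2ec8a3_nt.ExceptionExponent (exceptions rad3 radical)

theorem sub_exc (M X : ℝ) : Rad3a M X ⊆
    (fun p : ℕ × ℕ => (p.1, p.2, p.1 + p.2)) '' exceptions M X ∪
      (fun p : ℕ × ℕ => (p.2, p.1, p.1 + p.2)) '' exceptions M X := by
  rintro ⟨a, b, c⟩ ⟨h1, h2, h3, h4, h5, h6⟩
  simp only at h1 h2 h3 h4 h5 h6
  subst h4
  rcases le_total a b with h | h
  · left
    exact ⟨(a, b), ⟨⟨h1, h, h3, h5⟩, h6⟩, rfl⟩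
  · right
    have e1 : b * a * (b + a) = a * b * (a + b) := by ring
    refine ⟨(b, a), ⟨⟨h2, h, h3.symm, ?_⟩, ?_⟩, ?_⟩
    · have e2 : rad3 (b, a) = ∏ p ∈ (a * b * (a + b)).primeFactors, p := by
        unfold rad3 radical
        rw [e1]
      rw [e2]
      exact h5
    · have e2 : rad3 (b, a) = ∏ p ∈ (a * b * (a + b)).primeFactors, p := by
        unfold rad3 radical
        rw [e1]
      rw [e2]
      simp only
      rw [Nat.add_comm b a]
      exact h6
    · simp only [Nat.add_comm b a]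

theorem rad3a_fin (M X : ℝ) : (Rad3a M X).Finite := by
  have h := Pool.Agent.Results.MP_2ec8a3_nt.ExceptionExponent.result.1 M X
  exact ((h.image _).union (h.image _)).subset (sub_exc M X)

theorem rad3a_card (M X : ℝ) : (Rad3a M X).ncard ≤ 2 * (exceptions M X).ncard := by
  have h := Pool.Agent.Results.MP_2ec8a3_nt.ExceptionExponent.result.1 M X
  have h1 := Set.ncard_le_ncard (sub_exc M X) ((h.image _).union (h.image _))
  have h2 := Set.ncard_union_le ((fun p : ℕ × ℕ => (p.1, p.2, p.1 + p.2)) '' exceptions M X)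
    ((fun p : ℕ × ℕ => (p.2, p.1, p.1 + p.2)) '' exceptions M X)
  have h3 := Set.ncard_image_le (f := fun p : ℕ × ℕ => (p.1, p.2, p.1 + p.2)) h
  have h4 := Set.ncard_image_le (f := fun p : ℕ × ℕ => (p.2, p.1, p.1 + p.2)) h
  omega

/-- **Theorem (R).** -/
theorem finr (h1 : Pool.Agent.N906.KG.S_UPU ℚ 3 1) (h2 : Pool.Agent.N906.RS.S_LO ℚ) :
    Pool.Agent.N906.KG.S_FINR := by
  have hinv : ∀ {M : ℝ}, 1 / 3 < M → 1 / M < 3 := by
    intro M hM
    rw [div_lt_iff₀ (by linarith)]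
    linarith
  refine ⟨fun M A hM hM1 hA => ⟨fun X => rad3_fin _ _ _, ?_⟩, ?_⟩
  · have hM0 : 0 < M := by linarith
    exact lim hM0 (by linarith [hinv hM]) (fun X => ((Rad3 M X (X ^ A)).ncard : ℝ))
      (fun ε hε hε1 => up1 h1 hM hM1 hε hε1) (fun ε hε hε1 => low1 h2 hM hM1 hA hε hε1)
  · obtain ⟨M₁, hM₁, hT⟩ := Pool.Agent.Results.MP_2ec8a3_nt.ExceptionExponent.result.2
    refine ⟨min M₁ (3 / 7), lt_min hM₁ (by norm_num), fun M hM hMM => ⟨fun X => rad3a_fin M X, ?_⟩⟩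
    have hM0 : 0 < M := by linarith
    have hM1 : M < 3 / 7 := hMM.trans_le (min_le_right _ _)
    have hκ : 0 < 3 - 1 / M := by linarith [hinv hM]
    set M' := (M + min M₁ (3 / 7)) / 2 with hM'
    have hMM' : M < M' := by rw [hM']; linarith
    have hM'1 : M' ≤ M₁ := by
      have := min_le_left M₁ (3 / 7)
      rw [hM']
      linarith
    have hM'2 : M' ≤ 1 := by
      have := min_le_right M₁ (3 / 7)
      rw [hM']
      linarith
    have hT' := hT M' (hM.trans hMM') hM'1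
    have hexc : ∀ᶠ X : ℝ in atTop, ((exceptions M' X).ncard : ℝ) ≤ X ^ (1 - M) := by
      filter_upwards [hT'.eventually_lt_const (by linarith : 1 - M' < 1 - M),
        eventually_gt_atTop (1 : ℝ)] with X hX hX1
      rcases Nat.eq_zero_or_pos (exceptions M' X).ncard with h3 | h3
      · rw [h3, Nat.cast_zero]
        positivity
      · have h4 : (0 : ℝ) < ((exceptions M' X).ncard : ℝ) := by exact_mod_cast h3
        rw [div_lt_iff₀ (Real.log_pos hX1)] at hX
        rw [← Real.log_le_log_iff h4 (by positivity), Real.log_rpow (by linarith)]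
        exact hX.le
    have hexp : Tendsto (fun H : ℝ => Real.exp (H / M)) atTop atTop :=
      Real.tendsto_exp_atTop.comp (tendsto_id.atTop_div_const hM0)
    refine lim hM0 hκ (fun X => ((Rad3a M X).ncard : ℝ)) (fun ε hε hε1 => ?_)
      (fun ε hε hε1 => ?_)
    · filter_upwards [up1 h1 (A := 1) hM hM1 (ε := ε / 2) (by positivity) (by linarith),
        hexp.eventually hexc, eventually_ge_atTop (1 : ℝ),
        ev_low (κ := 3 - 1 / M) (ε := ε / 2) hκ (by positivity) (Real.log 3)] with H a1 a2 a3 a4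
      set X := Real.exp (H / M) with hX
      have hX1 : 1 ≤ X := Real.one_le_exp (by positivity)
      have hsub : Rad3a M X ⊆ Rad3 M X (X ^ (1 : ℝ)) ∪ Rad3a M' X := by
        rintro t ⟨b1, b2, b3, b4, b5, b6⟩
        rcases le_or_gt (t.2.2 : ℝ) (X ^ (1 : ℝ)) with h | h
        · exact Or.inl ⟨b1, b2, b3, b4, h, b5, b6⟩
        · right
          refine ⟨b1, b2, b3, b4, b5, ?_⟩
          have hMp : 0 ≤ M' := by linarith
          calc ((∏ p ∈ (t.1 * t.2.1 * t.2.2).primeFactors, p : ℕ) : ℝ) ^ M' ≤ X ^ M' :=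
                Real.rpow_le_rpow (Nat.cast_nonneg _) b5 hMp
            _ ≤ X ^ (1 : ℝ) := Real.rpow_le_rpow_of_exponent_le hX1 hM'2
            _ ≤ _ := h.le
      have h3 : ((Rad3a M X).ncard : ℝ) ≤ ((Rad3 M X (X ^ (1 : ℝ))).ncard : ℝ) +
          2 * ((exceptions M' X).ncard : ℝ) := by
        have h4 := Set.ncard_le_ncard hsub ((rad3_fin _ _ _).union (rad3a_fin _ _))
        have h5 := Set.ncard_union_le (Rad3 M X (X ^ (1 : ℝ))) (Rad3a M' X)
        have h6 := rad3a_card M' X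
        have h7 : (Rad3a M X).ncard ≤ (Rad3 M X (X ^ (1 : ℝ))).ncard +
          2 * (exceptions M' X).ncard := by omega
        exact_mod_cast h7
      set s := √(24 * (3 - 1 / M) * H / Real.log H) with hs
      have hs0 : 0 ≤ s := Real.sqrt_nonneg _
      have h8 : X ^ (1 - M) = Real.exp ((1 / M - 1) * H) := by
        rw [hX, ← Real.exp_mul]
        congr 1
        field_simp
      have h9 : Real.exp ((1 / M - 1) * H) ≤ Real.exp ((1 / M - 1) * H + (1 + ε / 2) * s) := by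
        apply Real.exp_le_exp.2
        have : 0 ≤ (1 + ε / 2) * s := by positivity
        linarith
      have h10 : Real.exp ((1 / M - 1) * H + (1 + ε / 2) * s) * 3 ≤
          Real.exp ((1 / M - 1) * H + (1 + ε) * s) := by
        have h6 : Real.exp (Real.log 3) = 3 := Real.exp_log (by norm_num)
        calc Real.exp ((1 / M - 1) * H + (1 + ε / 2) * s) * 3
            = Real.exp ((1 / M - 1) * H + (1 + ε / 2) * s + Real.log 3) := by
              rw [Real.exp_add _ (Real.log 3), h6]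
          _ ≤ _ := Real.exp_le_exp.2 (by linarith)
      rw [h8] at a2
      linarith
    · filter_upwards [low1 h2 (A := 1) hM hM1 le_rfl hε hε1] with H a1
      refine a1.trans ?_
      have hsub : Rad3 M (Real.exp (H / M)) (Real.exp (H / M) ^ (1 : ℝ)) ⊆
          Rad3a M (Real.exp (H / M)) := by
        rintro t ⟨b1, b2, b3, b4, b5, b6, b7⟩
        exact ⟨b1, b2, b3, b4, b6, b7⟩
      exact_mod_cast Set.ncard_le_ncard hsub (rad3a_fin _ _)

end Pool.Agent.N521.QP
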