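import Pool.Agent.N709.UM.Stm3

set_option autoImplicit false

/-!
Project UM3 (helper709), leaf CAU3 (helper521, after UM2CAU of helper199): an asymptotically central
ultrafilter which does not converge is not Cauchy.
-/

open Filter Topology

universe u

namespace Pool.Agent.N521.UM3CAU3

open Pool.Agent.N709.UM

theorem cau3 : Pool.Agent.N709.UM.Cau3.{u} := by
  intro G _ _ _ hRC ρ hρ F hF hno
  by_contra hcon
  push Not at hcon
  apply hno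
  have key : ∀ e : ℝ, 0 < e → {a : G | {b : G | ρ (a * b⁻¹) < e} ∈ F} ∈ F := by
    intro e he
    have h1 := hcon e he
    have h2 : {a : G | {b : G | e ≤ ρ (a * b⁻¹)} ∈ F}ᶜ ∈ F :=
      Ultrafilter.compl_mem_iff_notMem.2 h1
    refine Filter.mem_of_superset h2 ?_
    intro a ha
    have h3 : {b : G | e ≤ ρ (a * b⁻¹)} ∉ F := ha
    have h4 : {b : G | e ≤ ρ (a * b⁻¹)}ᶜ ∈ F := Ultrafilter.compl_mem_iff_notMem.2 h3
    refine Filter.mem_of_superset h4 ?_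
    intro b hb
    have h5 : ¬ e ≤ ρ (a * b⁻¹) := hb
    exact not_le.1 h5
  refine hRC (F : Filter G) inferInstance ?_
  intro V hV
  obtain ⟨r, hr, hrV⟩ := hρ.gen V hV
  have h5 := key (r / 4) (by linarith)
  obtain ⟨a, ha⟩ := F.neBot.nonempty_of_mem h5
  have hB : {b : G | ρ (a * b⁻¹) < r / 4} ∈ F := ha
  have hA := hF.inv (r / 4) (by linarith)
  refine ⟨{b : G | ρ (a * b⁻¹) < r / 4} ∩
    {x : G | ∀ c, ρ (x * c * x⁻¹) ≤ ρ c + r / 4 ∧ ρ (x⁻¹ * c * x) ≤ ρ c + r / 4},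
    Filter.inter_mem hB hA, ?_⟩
  rintro x ⟨hx1, hx2⟩ y ⟨hy1, -⟩
  have hx1' : ρ (a * x⁻¹) < r / 4 := hx1
  have hy1' : ρ (a * y⁻¹) < r / 4 := hy1
  have h6 : ρ (y * x⁻¹) < r / 2 := by
    have h7 := hρ.pn.mul (a * y⁻¹)⁻¹ (a * x⁻¹)
    have h8 : (a * y⁻¹)⁻¹ * (a * x⁻¹) = y * x⁻¹ := by group
    rw [h8, hρ.pn.inv] at h7
    linarith
  refine ⟨?_, hrV _ (by linarith)⟩
  apply hrV
  have h9 := (hx2 (y * x⁻¹)).2
  have h10 : x⁻¹ * (y * x⁻¹) * x = x⁻¹ * y := by group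
  rw [h10] at h9
  linarith

end Pool.Agent.N521.UM3CAU3
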