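import Pool.Agent.N894.WF.DefsG

/-!
WF/G2: from words to the graph product (helper521; the first part follows WF/B2 of helper398).
-/

set_option autoImplicit false

namespace Pool.Agent.N521.WF

open N894.WF

section

variable {V : Type} {Γ : V → Type} [∀ v, Group (Γ v)]

/-- the homomorphism of the free group on the letters -/
noncomputable def Ph {P : Type} [Group P] (φ : (v : V) → Γ v → P) : FreeGroup (Σ v, Γ v) →* P :=
  FreeGroup.lift fun x => φ x.1 x.2

/-- the maps commute along the edges -/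
def Cm (X : SimpleGraph V) {P : Type} [Group P] (φ : (v : V) → Γ v → P) : Prop :=
  ∀ u v, X.Adj u v → ∀ (a : Γ u) (b : Γ v), Commute (φ u a) (φ v b)

/-- consequences of boundedly many errors -/
def Cons (X : SimpleGraph V) (r : FreeGroup (Σ v, Γ v)) : Prop :=
  ∃ (F : Finset (Σ v, Γ v)) (n : ℕ), ∀ (P : Type) [Group P] (φ : (v : V) → Γ v → P), Cm X φ →
    ∃ T : Finset P, T.card ≤ n ∧ IsErrV φ F T ∧ Ph φ r ∈ Subgroup.closure (T : Set P)

theorem err_mono {P : Type} [Group P] {φ : (v : V) → Γ v → P} {F F' : Finset (Σ v, Γ v)}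
    (h : F ⊆ F') {T : Finset P} (hT : IsErrV φ F T) : IsErrV φ F' T := by
  intro t ht
  obtain ⟨x, v, a, b, ha, hb, e⟩ := hT t ht
  exact ⟨x, v, a, b, h ha, h hb, e⟩

open Classical in
theorem conj_closure {P : Type} [Group P] {φ : (v : V) → Γ v → P} {F : Finset (Σ v, Γ v)}
    {T : Finset P} (hT : IsErrV φ F T) (y : P) {z : P}
    (hz : z ∈ Subgroup.closure (T : Set P)) :
    IsErrV φ F (T.image fun t => y * t * y⁻¹) ∧
      y * z * y⁻¹ ∈ Subgroup.closure ((T.image fun t => y * t * y⁻¹ : Finset P) : Set P) := by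
  constructor
  · intro t ht
    obtain ⟨s, hs, rfl⟩ := Finset.mem_image.1 ht
    obtain ⟨x, v, a, b, ha, hb, e⟩ := hT s hs
    refine ⟨y * x, v, a, b, ha, hb, ?_⟩
    rw [e]
    group
  · have h1 : y * z * y⁻¹ ∈ (Subgroup.closure (T : Set P)).map (MulAut.conj y).toMonoidHom :=
      ⟨z, hz, rfl⟩
    rw [MonoidHom.map_closure] at h1
    rw [Finset.coe_image]
    exact h1

variable (X : SimpleGraph V) (Γ) in
/-- the subgroup of the consequences -/
def NN : Subgroup (FreeGroup (Σ v, Γ v)) where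
  carrier := {r | Cons X r}
  one_mem' := ⟨∅, 0, fun P _ φ _ => ⟨∅, le_rfl, fun t ht => absurd ht (Finset.notMem_empty t), by
    rw [map_one]
    exact Subgroup.one_mem _⟩⟩
  mul_mem' := by
    classical
    rintro r s ⟨F, n, h⟩ ⟨F', n', h'⟩
    refine ⟨F ∪ F', n + n', fun P _ φ hφ => ?_⟩
    obtain ⟨T, hT1, hT2, hT3⟩ := h P φ hφ
    obtain ⟨T', hT1', hT2', hT3'⟩ := h' P φ hφ
    refine ⟨T ∪ T', (Finset.card_union_le _ _).trans (add_le_add hT1 hT1'), ?_, ?_⟩
    · intro t ht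
      rcases Finset.mem_union.1 ht with ht | ht
      · exact (err_mono Finset.subset_union_left hT2) t ht
      · exact (err_mono Finset.subset_union_right hT2') t ht
    · rw [map_mul]
      refine Subgroup.mul_mem _ (Subgroup.closure_mono ?_ hT3) (Subgroup.closure_mono ?_ hT3')
      · exact_mod_cast Finset.subset_union_left
      · exact_mod_cast Finset.subset_union_right
  inv_mem' := by
    rintro r ⟨F, n, h⟩
    refine ⟨F, n, fun P _ φ hφ => ?_⟩
    obtain ⟨T, hT1, hT2, hT3⟩ := h P φ hφ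
    refine ⟨T, hT1, hT2, ?_⟩
    rw [map_inv]
    exact Subgroup.inv_mem _ hT3

theorem mem_NN {X : SimpleGraph V} {r : FreeGroup (Σ v, Γ v)} : r ∈ NN Γ X ↔ Cons X r := Iff.rfl

instance (X : SimpleGraph V) : (NN Γ X).Normal where
  conj_mem := by
    classical
    rintro r ⟨F, n, h⟩ w
    refine ⟨F, n, fun P _ φ hφ => ?_⟩
    obtain ⟨T, hT1, hT2, hT3⟩ := h P φ hφ
    obtain ⟨a, b⟩ := conj_closure hT2 (Ph φ w) hT3
    refine ⟨_, Finset.card_image_le.trans hT1, a, ?_⟩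
    rw [map_mul, map_mul, map_inv]
    exact b

theorem rel_mem (X : SimpleGraph V) (v : V) (a b : Γ v) :
    FreeGroup.of (⟨v, a⟩ : Σ v, Γ v) * FreeGroup.of (⟨v, b⟩ : Σ v, Γ v) *
      (FreeGroup.of (⟨v, a * b⟩ : Σ v, Γ v))⁻¹ ∈ NN Γ X := by
  classical
  refine ⟨{⟨v, a⟩, ⟨v, b⟩}, 1, fun P _ φ _ => ?_⟩
  have e : Ph φ (FreeGroup.of (⟨v, a⟩ : Σ v, Γ v) * FreeGroup.of (⟨v, b⟩ : Σ v, Γ v) *
      (FreeGroup.of (⟨v, a * b⟩ : Σ v, Γ v))⁻¹) = φ v a * φ v b * (φ v (a * b))⁻¹ := by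
    unfold Ph
    rw [map_mul, map_mul, map_inv, FreeGroup.lift_apply_of, FreeGroup.lift_apply_of,
      FreeGroup.lift_apply_of]
  refine ⟨{φ v a * φ v b * (φ v (a * b))⁻¹}, by simp, ?_, ?_⟩
  · intro t ht
    refine ⟨1, v, a, b, by simp, by simp, ?_⟩
    rw [Finset.mem_singleton.1 ht]
    group
  · rw [e]
    exact Subgroup.subset_closure (by simp)

theorem com_mem (X : SimpleGraph V) {u v : V} (h : X.Adj u v) (a : Γ u) (b : Γ v) :
    FreeGroup.of (⟨u, a⟩ : Σ v, Γ v) * FreeGroup.of (⟨v, b⟩ : Σ v, Γ v) *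
      (FreeGroup.of (⟨u, a⟩ : Σ v, Γ v))⁻¹ * (FreeGroup.of (⟨v, b⟩ : Σ v, Γ v))⁻¹ ∈ NN Γ X := by
  refine ⟨∅, 0, fun P _ φ hφ => ⟨∅, le_rfl, fun t ht => absurd ht (Finset.notMem_empty t), ?_⟩⟩
  have e : Ph φ (FreeGroup.of (⟨u, a⟩ : Σ v, Γ v) * FreeGroup.of (⟨v, b⟩ : Σ v, Γ v) *
      (FreeGroup.of (⟨u, a⟩ : Σ v, Γ v))⁻¹ * (FreeGroup.of (⟨v, b⟩ : Σ v, Γ v))⁻¹) = 1 := by
    unfold Ph
    rw [map_mul, map_mul, map_mul, map_inv, map_inv, FreeGroup.lift_apply_of,
      FreeGroup.lift_apply_of]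
    have h2 : φ u a * φ v b = φ v b * φ u a := hφ u v h a b
    rw [h2]
    group
  rw [e]
  exact Subgroup.one_mem _

/-- the homomorphisms of the factors to the quotient -/
noncomputable def fac (X : SimpleGraph V) (v : V) : Γ v →* FreeGroup (Σ v, Γ v) ⧸ NN Γ X :=
  MonoidHom.mk' (fun a => QuotientGroup.mk' (NN Γ X) (FreeGroup.of ⟨v, a⟩)) (by
    intro a b
    have h := (QuotientGroup.eq_one_iff (N := NN Γ X) _).2 (rel_mem X v a b)
    have h2 : QuotientGroup.mk' (NN Γ X) (FreeGroup.of (⟨v, a⟩ : Σ v, Γ v) *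
      FreeGroup.of (⟨v, b⟩ : Σ v, Γ v) * (FreeGroup.of (⟨v, a * b⟩ : Σ v, Γ v))⁻¹) = 1 := h
    rw [map_mul, map_mul, map_inv, mul_inv_eq_one] at h2
    exact h2.symm)

/-- the product of a list of letters in the free group -/
def ll (l : List (Σ v, Γ v)) : FreeGroup (Σ v, Γ v) := (l.map FreeGroup.of).prod

omit [∀ v, Group (Γ v)] in
theorem Ph_ll {P : Type} [Group P] (φ : (v : V) → Γ v → P) (l : List (Σ v, Γ v)) :
    Ph φ (ll l) = ev φ l := by
  unfold ll ev Ph
  rw [map_list_prod, List.map_map]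
  congr 1
  refine List.map_congr_left fun x _ => ?_
  exact FreeGroup.lift_apply_of

/-- the relators of the graph product -/
def relG (X : SimpleGraph V) (Γ : V → Type) [∀ v, Group (Γ v)] : Set (Monoid.CoprodI Γ) :=
  {z : Monoid.CoprodI Γ | ∃ u v : V, X.Adj u v ∧ ∃ (a : Γ u) (b : Γ v),
      z = Monoid.CoprodI.of a * Monoid.CoprodI.of b * (Monoid.CoprodI.of a)⁻¹ *
        (Monoid.CoprodI.of b)⁻¹}

/-- the quotient map -/
noncomputable def mkG (X : SimpleGraph V) (Γ : V → Type) [∀ v, Group (Γ v)] :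
    Monoid.CoprodI Γ →* GraphProduct X Γ :=
  QuotientGroup.mk' (Subgroup.normalClosure (relG X Γ))

theorem mkG_surj (X : SimpleGraph V) : Function.Surjective (mkG X Γ) :=
  QuotientGroup.mk'_surjective (Subgroup.normalClosure (relG X Γ))

theorem mkG_one (X : SimpleGraph V) {z : Monoid.CoprodI Γ} (hz : z ∈ relG X Γ) :
    mkG X Γ z = 1 :=
  (QuotientGroup.eq_one_iff (N := Subgroup.normalClosure (relG X Γ)) z).2
    (Subgroup.subset_normalClosure hz)

theorem fac_kills (X : SimpleGraph V) : ∀ z ∈ Subgroup.normalClosure (relG X Γ),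
    Monoid.CoprodI.lift (fac (Γ := Γ) X) z = 1 := by
  intro z hz
  have h1 : Subgroup.normalClosure (relG X Γ) ≤ (Monoid.CoprodI.lift (fac (Γ := Γ) X)).ker := by
    apply Subgroup.normalClosure_le_normal
    rintro z ⟨u, v, h, a, b, rfl⟩
    show Monoid.CoprodI.lift (fac (Γ := Γ) X) _ = 1
    rw [map_mul, map_mul, map_mul, map_inv, map_inv, Monoid.CoprodI.lift_of,
      Monoid.CoprodI.lift_of]
    have h2 := (QuotientGroup.eq_one_iff (N := NN Γ X) _).2 (com_mem X h a b)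
    exact h2
  exact h1 hz

/-- the homomorphism of the graph product to the quotient -/
noncomputable def th (X : SimpleGraph V) (Γ : V → Type) [∀ v, Group (Γ v)] :
    GraphProduct X Γ →* FreeGroup (Σ v, Γ v) ⧸ NN Γ X :=
  QuotientGroup.lift (Subgroup.normalClosure (relG X Γ)) (Monoid.CoprodI.lift (fac X))
    (fac_kills X)

theorem th_mk (X : SimpleGraph V) (z : Monoid.CoprodI Γ) :
    th X Γ (mkG X Γ z) = Monoid.CoprodI.lift (fac X) z := rfl

/-- the value of a letter -/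
noncomputable def lt (X : SimpleGraph V) (x : Σ v, Γ v) : GraphProduct X Γ :=
  mkG X Γ (Monoid.CoprodI.of x.2)

/-- the value of a word -/
noncomputable def vl (X : SimpleGraph V) (l : List (Σ v, Γ v)) : GraphProduct X Γ :=
  (l.map (lt X)).prod

theorem vl_nil (X : SimpleGraph V) : vl (Γ := Γ) X [] = 1 := rfl

theorem vl_cons (X : SimpleGraph V) (x : Σ v, Γ v) (l : List (Σ v, Γ v)) :
    vl X (x :: l) = lt X x * vl X l := by
  unfold vl
  rw [List.map_cons, List.prod_cons]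

theorem vl_append (X : SimpleGraph V) (l l' : List (Σ v, Γ v)) :
    vl X (l ++ l') = vl X l * vl X l' := by
  unfold vl
  rw [List.map_append, List.prod_append]

theorem th_vl (X : SimpleGraph V) (l : List (Σ v, Γ v)) :
    th X Γ (vl X l) = QuotientGroup.mk' (NN Γ X) (ll l) := by
  unfold vl ll
  rw [map_list_prod, map_list_prod, List.map_map, List.map_map]
  congr 1

theorem vl_surj (X : SimpleGraph V) (g : GraphProduct X Γ) : ∃ l, vl X l = g := by
  classical
  obtain ⟨z, rfl⟩ := mkG_surj X g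
  obtain ⟨w, rfl⟩ := Monoid.CoprodI.Word.equiv.symm.surjective z
  refine ⟨w.toList, ?_⟩
  have h1 : (Monoid.CoprodI.Word.equiv (M := Γ)).symm w = w.prod := rfl
  rw [h1]
  unfold vl Monoid.CoprodI.Word.prod
  rw [map_list_prod, List.map_map]
  congr 1

theorem vl_min (X : SimpleGraph V) (g : GraphProduct X Γ) :
    ∃ l, vl X l = g ∧ ∀ l', vl X l' = g → l.length ≤ l'.length := by
  classical
  have h : ∃ n : ℕ, ∃ l, vl X l = g ∧ l.length = n := by
    obtain ⟨l, hl⟩ := vl_surj X g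
    exact ⟨l.length, l, hl, rfl⟩
  obtain ⟨l, hl1, hl2⟩ := Nat.find_spec h
  refine ⟨l, hl1, fun l' hl' => ?_⟩
  rw [hl2]
  exact Nat.find_min' h ⟨l', hl', rfl⟩

theorem lt_one (X : SimpleGraph V) {x : Σ v, Γ v} (h : x.2 = 1) : lt X x = 1 := by
  unfold lt
  rw [h, map_one, map_one]

theorem lt_mul (X : SimpleGraph V) (v : V) (a b : Γ v) :
    lt X ⟨v, a * b⟩ = lt X ⟨v, a⟩ * lt X ⟨v, b⟩ := by
  unfold lt
  rw [map_mul, map_mul]

theorem lt_comm (X : SimpleGraph V) {x y : Σ v, Γ v} (h : X.Adj x.1 y.1) :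
    lt X x * lt X y = lt X y * lt X x := by
  unfold lt
  have h1 := mkG_one (Γ := Γ) X ⟨x.1, y.1, h, x.2, y.2, rfl⟩
  rw [map_mul, map_mul, map_mul, map_inv, map_inv, mul_inv_eq_one, mul_inv_eq_iff_eq_mul] at h1
  exact h1

theorem vl_comm (X : SimpleGraph V) (y : Σ v, Γ v) (u : List (Σ v, Γ v))
    (h : ∀ z ∈ u, X.Adj y.1 z.1) : lt X y * vl X u = vl X u * lt X y := by
  induction u with
  | nil => rw [vl_nil, mul_one, one_mul]
  | cons z u ih =>
    rw [vl_cons, ← mul_assoc, lt_comm X (h z List.mem_cons_self), mul_assoc,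
      ih fun z' hz' => h z' (List.mem_cons_of_mem _ hz'), mul_assoc]

theorem min_ne_one (X : SimpleGraph V) {l : List (Σ v, Γ v)}
    (hl : ∀ l', vl X l' = vl X l → l.length ≤ l'.length) : ∀ x ∈ l, x.2 ≠ 1 := by
  intro x hx h1
  obtain ⟨p, q, rfl⟩ := List.append_of_mem hx
  have h2 := hl (p ++ q) (by rw [vl_append, vl_append, vl_cons, lt_one X h1, one_mul])
  rw [List.length_append, List.length_append, List.length_cons] at h2
  omega

theorem min_red (X : SimpleGraph V) {l : List (Σ v, Γ v)}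
    (hl : ∀ l', vl X l' = vl X l → l.length ≤ l'.length) : Red X l := by
  rintro p u q ⟨v, a⟩ ⟨v', b⟩ e h
  subst h
  by_contra hcon
  push Not at hcon
  subst e
  have h2 := hl (p ++ ⟨v, a * b⟩ :: (u ++ q)) (by
    rw [vl_append, vl_cons, vl_append, lt_mul, vl_append, vl_cons, vl_append, vl_cons]
    congr 1
    have h3 : lt X ⟨v, b⟩ * vl X u = vl X u * lt X ⟨v, b⟩ := vl_comm X ⟨v, b⟩ u hcon
    rw [mul_assoc, ← mul_assoc (lt X ⟨v, b⟩), h3, mul_assoc])
  simp only [List.length_append, List.length_cons] at h2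
  omega

end

theorem t_G2 : LeafG2 := by
  classical
  intro V X Γ _ hG F₀ K
  choose w hw hmin using fun g : GraphProduct X Γ => vl_min X g
  have hmin' : ∀ g l', vl X l' = vl X (w g) → (w g).length ≤ l'.length := by
    intro g l' h
    exact hmin g l' (h.trans (hw g))
  have hc : ∀ g h : GraphProduct X Γ,
      Cons X (ll (w g) * ll (w h) * (ll (w (g * h)))⁻¹) := by
    intro g h
    rw [← mem_NN, ← QuotientGroup.eq_one_iff]
    show QuotientGroup.mk' (NN Γ X) (ll (w g) * ll (w h) * (ll (w (g * h)))⁻¹) = 1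
    have e : ∀ g, QuotientGroup.mk' (NN Γ X) (ll (w g)) = th X Γ g := by
      intro g
      rw [← th_vl, hw g]
    rw [map_mul, map_mul, map_inv, e, e, e, map_mul, mul_inv_cancel]
  choose F₁ n hn using hc
  obtain ⟨F, hF⟩ : ∃ F : Finset (Σ v, Γ v), F = (F₀ ×ˢ F₀).biUnion (fun p => F₁ p.1 p.2) ∪
      F₀.biUnion fun g => (w g).toFinset := ⟨_, rfl⟩
  obtain ⟨m, hm⟩ : ∃ m : ℕ, m = ∑ p ∈ F₀ ×ˢ F₀, n p.1 p.2 := ⟨_, rfl⟩
  obtain ⟨N, hN⟩ : ∃ N : ℕ, N = ∑ g ∈ F₀, (w g).length := ⟨_, rfl⟩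
  obtain ⟨P, hP, hfin, φ, hφ, hgood⟩ := hG F (K * m) N
  refine ⟨P, hP, hfin, fun g => ev φ (w g), fun T hT hE g hg hg1 hmem => ?_⟩
  have hone : ∀ t : P, t ∈ T → ∃ T' : Finset P, T'.card ≤ m ∧ IsErrV φ F T' ∧
      t ∈ Subgroup.closure (T' : Set P) := by
    intro t ht
    obtain ⟨x, g, hg, h, hh, e⟩ := hE t ht
    obtain ⟨T', h1, h2, h3⟩ := hn g h P φ hφ
    obtain ⟨h4, h5⟩ := conj_closure h2 x h3
    refine ⟨_, Finset.card_image_le.trans (h1.trans ?_), err_mono ?_ h4, ?_⟩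
    · rw [hm]
      exact Finset.single_le_sum (f := fun p : GraphProduct X Γ × GraphProduct X Γ => n p.1 p.2)
        (fun _ _ => Nat.zero_le _) (Finset.mk_mem_product hg hh)
    · rw [hF]
      refine Finset.Subset.trans ?_ Finset.subset_union_left
      exact Finset.subset_biUnion_of_mem
        (fun p : GraphProduct X Γ × GraphProduct X Γ => F₁ p.1 p.2) (Finset.mk_mem_product hg hh)
    · rw [map_mul, map_mul, map_inv, Ph_ll, Ph_ll, Ph_ll, ← e] at h5
      exact h5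
  choose T' h1 h2 h3 using hone
  have hmem2 : ev φ (w g) ∈ Subgroup.closure
      ((T.attach.biUnion fun t => T' t.1 t.2 : Finset P) : Set P) := by
    refine (Subgroup.closure_le _).2 (fun t ht => ?_) hmem
    refine Subgroup.closure_mono ?_ (h3 t ht)
    intro s hs
    exact Finset.mem_coe.2 (Finset.mem_biUnion.2 ⟨⟨t, ht⟩, Finset.mem_attach _ _, hs⟩)
  have hne : w g ≠ [] := by
    intro h0
    apply hg1
    rw [← hw g, h0, vl_nil]
  obtain ⟨y, hy⟩ := List.exists_mem_of_ne_nil _ hne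
  refine hgood (w g) ?_ ?_ (min_red X (hmin' g)) ∅ ⟨y, hy, fun h => h⟩
    (T.attach.biUnion fun t => T' t.1 t.2) ?_ ?_ _ hmem2 1 (Subgroup.one_mem _)
    (mul_one _).symm
  · rw [hN]
    exact Finset.single_le_sum (f := fun g => (w g).length) (fun _ _ => Nat.zero_le _) hg
  · intro x hx
    refine ⟨?_, min_ne_one X (hmin' g) x hx⟩
    rw [hF]
    exact Finset.mem_union_right _ (Finset.mem_biUnion.2 ⟨g, hg, List.mem_toFinset.2 hx⟩)
  · refine (Finset.card_biUnion_le_card_mul _ _ m fun t _ => h1 t.1 t.2).trans ?_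
    rw [Finset.card_attach]
    exact Nat.mul_le_mul_right m hT
  · intro t ht
    obtain ⟨s, -, hs⟩ := Finset.mem_biUnion.1 ht
    exact h2 s.1 s.2 t hs

end Pool.Agent.N521.WF
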